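import Pool.Agent.H70.AE.Defs

/-!
# AE-B1: adjacent special edges with the same new colour

`i = (v, u, w, α)`. Terms with `e = s(v,u)`: write `e = s(x,y)`; then `(v,u) = (x,y)` or `(y,x)` (`Sym2.eq_iff`), and for
each of the two the sum over `w` and `α` is `(2 p e / q) * ∑ w, (2 p s(v,w) / q) * q ≤ 4 p e W / q`. The same with
`e = s(v,w)`. Total `≤ 16 p e W / q ≤ p e / 16`. (The sum over the filter with `∨` is at most the sum of the
two sums, all terms are nonnegative.)
-/

set_option autoImplicit false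

open Finset

namespace Pool.Agent.H70.AE

open Classical in
lemma b1_count {V : Type} [Fintype V] (e : Sym2 V) :
    ((univ : Finset (V × V)).filter (fun x => e = s(x.1, x.2))).card ≤ 2 := by
  induction e using Sym2.ind with
  | _ x y =>
    have hsub : (univ : Finset (V × V)).filter (fun z => s(x, y) = s(z.1, z.2))
        ⊆ {(x, y), (y, x)} := by
      intro z hz
      simp only [mem_filter, mem_univ, true_and, Sym2.eq_iff] at hz
      simp only [mem_insert, mem_singleton]
      rcases hz with ⟨h1, h2⟩ | ⟨h1, h2⟩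
      · left; ext <;> simp [h1, h2]
      · right; ext <;> simp [h1, h2]
    exact (card_le_card hsub).trans (card_le_two)

open Classical in
lemma b1_half {V : Type} [Fintype V] (p : Sym2 V → ℝ) (p0 : ∀ e, 0 ≤ p e) (W : ℝ) (W0 : 0 ≤ W)
    (hW : ∀ v, ∑ u, p s(v, u) ≤ W) (q : ℕ) (q0 : 0 < q) (e : Sym2 V) :
    ∑ v : V, ∑ u : V, ∑ w : V, ∑ _a : Fin q,
      (if e = s(v, u) then (2 * p s(v, u) / q) * (2 * p s(v, w) / q) else 0) ≤ 8 * p e * W / q := by
  have qr : (0 : ℝ) < q := by exact_mod_cast q0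
  have step : ∀ v u : V, ∑ w : V, ∑ _a : Fin q,
      (if e = s(v, u) then (2 * p s(v, u) / q) * (2 * p s(v, w) / q) else 0)
      ≤ if e = s(v, u) then 4 * p e * W / q else 0 := by
    intro v u
    by_cases h : e = s(v, u)
    · simp only [h, if_true, if_pos]
      have : ∑ w : V, ∑ _a : Fin q, (2 * p s(v, u) / (q : ℝ)) * (2 * p s(v, w) / q)
          = (4 * p s(v, u) / q) * ∑ w : V, p s(v, w) := by
        rw [mul_sum]
        refine sum_congr rfl fun w _ => ?_
        rw [sum_const, card_univ, Fintype.card_fin, nsmul_eq_mul]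
        field_simp
        ring
      rw [this]
      have h4 : 0 ≤ 4 * p s(v, u) / (q : ℝ) := by
        have := p0 s(v, u)
        positivity
      calc (4 * p s(v, u) / q) * ∑ w : V, p s(v, w) ≤ (4 * p s(v, u) / q) * W :=
            mul_le_mul_of_nonneg_left (hW v) h4
        _ = 4 * p s(v, u) * W / q := by ring
    · simp [h]
  calc ∑ v : V, ∑ u : V, ∑ w : V, ∑ _a : Fin q,
      (if e = s(v, u) then (2 * p s(v, u) / q) * (2 * p s(v, w) / q) else 0)
      ≤ ∑ v : V, ∑ u : V, (if e = s(v, u) then 4 * p e * W / q else 0) :=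
        sum_le_sum fun v _ => sum_le_sum fun u _ => step v u
    _ = ∑ x : V × V, (if e = s(x.1, x.2) then 4 * p e * W / q else 0) := by
        rw [Fintype.sum_prod_type]
    _ = (((univ : Finset (V × V)).filter (fun x => e = s(x.1, x.2))).card : ℝ)
          * (4 * p e * W / q) := by
        rw [← sum_filter, sum_const, nsmul_eq_mul]
    _ ≤ 2 * (4 * p e * W / q) := by
        have hc : (((univ : Finset (V × V)).filter (fun x => e = s(x.1, x.2))).card : ℝ) ≤ 2 := by
          exact_mod_cast b1_count e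
        have hn : 0 ≤ 4 * p e * W / q := by
          have := p0 e
          positivity
        exact mul_le_mul_of_nonneg_right hc hn
    _ = 8 * p e * W / q := by ring

open Classical in
theorem b1 {V : Type} [Fintype V] (p : Sym2 V → ℝ) (p0 : ∀ e, 0 ≤ p e) (W : ℝ)
    (hW : ∀ v, ∑ u, p s(v, u) ≤ W) (q : ℕ) (q0 : 0 < q) (hq : 256 * W ≤ q) (e : Sym2 V) :
    ∑ i ∈ univ.filter (fun i : V × V × V × Fin q => e = s(i.1, i.2.1) ∨ e = s(i.1, i.2.2.1)),
      (2 * p s(i.1, i.2.1) / q) * (2 * p s(i.1, i.2.2.1) / q) ≤ p e / 16 := by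
  have qr : (0 : ℝ) < q := by exact_mod_cast q0
  have W0 : 0 ≤ W := by
    obtain ⟨v, _⟩ : ∃ v : V, True := by
      induction e using Sym2.ind with
      | _ x y => exact ⟨x, trivial⟩
    exact (sum_nonneg fun u _ => p0 _).trans (hW v)
  have g0 : ∀ i : V × V × V × Fin q,
      0 ≤ (2 * p s(i.1, i.2.1) / (q : ℝ)) * (2 * p s(i.1, i.2.2.1) / q) := by
    intro i
    have h1 := p0 s(i.1, i.2.1)
    have h2 := p0 s(i.1, i.2.2.1)
    positivity
  rw [sum_filter]
  have key : ∀ i : V × V × V × Fin q,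
      (if (e = s(i.1, i.2.1) ∨ e = s(i.1, i.2.2.1)) then
        (2 * p s(i.1, i.2.1) / (q : ℝ)) * (2 * p s(i.1, i.2.2.1) / q) else 0)
      ≤ (if e = s(i.1, i.2.1) then
        (2 * p s(i.1, i.2.1) / (q : ℝ)) * (2 * p s(i.1, i.2.2.1) / q) else 0)
      + (if e = s(i.1, i.2.2.1) then
        (2 * p s(i.1, i.2.2.1) / (q : ℝ)) * (2 * p s(i.1, i.2.1) / q) else 0) := by
    intro i
    have h0 := g0 i
    have hc : (2 * p s(i.1, i.2.2.1) / (q : ℝ)) * (2 * p s(i.1, i.2.1) / q)
        = (2 * p s(i.1, i.2.1) / (q : ℝ)) * (2 * p s(i.1, i.2.2.1) / q) := mul_comm _ _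
    rw [hc]
    by_cases ha : e = s(i.1, i.2.1) <;> by_cases hb : e = s(i.1, i.2.2.1)
    · rw [if_pos (Or.inl ha), if_pos ha, if_pos hb]; linarith
    · rw [if_pos (Or.inl ha), if_pos ha, if_neg hb]; linarith
    · rw [if_pos (Or.inr hb), if_neg ha, if_pos hb]; linarith
    · rw [if_neg (by tauto), if_neg ha, if_neg hb]; linarith
  refine (sum_le_sum fun i _ => key i).trans ?_
  rw [sum_add_distrib]
  have hA : ∑ i : V × V × V × Fin q, (if e = s(i.1, i.2.1) then
        (2 * p s(i.1, i.2.1) / (q : ℝ)) * (2 * p s(i.1, i.2.2.1) / q) else 0)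
      ≤ 8 * p e * W / q := by
    have := b1_half p p0 W W0 hW q q0 e
    rw [Fintype.sum_prod_type]
    simp_rw [Fintype.sum_prod_type]
    exact this
  have hB : ∑ i : V × V × V × Fin q, (if e = s(i.1, i.2.2.1) then
        (2 * p s(i.1, i.2.2.1) / (q : ℝ)) * (2 * p s(i.1, i.2.1) / q) else 0)
      ≤ 8 * p e * W / q := by
    have := b1_half p p0 W W0 hW q q0 e
    rw [Fintype.sum_prod_type]
    simp_rw [Fintype.sum_prod_type]
    refine le_trans (le_of_eq ?_) this
    refine sum_congr rfl fun v _ => ?_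
    exact sum_comm
  have hfin : 8 * p e * W / q + 8 * p e * W / q ≤ p e / 16 := by
    have h1 : 8 * p e * W / q + 8 * p e * W / q = (p e / 16) * (256 * W / q) := by
      field_simp
      ring
    rw [h1]
    have h2 : 256 * W / (q : ℝ) ≤ 1 := by
      rw [div_le_one qr]; exact hq
    have h3 : 0 ≤ p e / 16 := by
      have := p0 e
      positivity
    calc (p e / 16) * (256 * W / q) ≤ (p e / 16) * 1 := mul_le_mul_of_nonneg_left h2 h3
      _ = p e / 16 := mul_one _
  linarith

end Pool.Agent.H70.AE
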