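import Pool.Agent.H70.AE.CW

/-!
# AE-B2: closed sequences of special edges through a given edge

Proof. Write `e = s(x,y)`. The sum is at most `∑_j` of the sum over the `v` with `e = s(v j, v (j+1))`, i.e. `(v j, v (j+1))` is
`(x,y)` or `(y,x)` (`Sym2.eq_iff`); in each case the factor of `i = j` is `p e` (`Finset.mul_prod_erase`) and the rest is `cw`
with `M a b = p s(a,b)`, `m = 2n+2` (`Fin (2*n+4)` is `Fin ((2*n+2)+2)` definitionally).
-/

set_option autoImplicit false

open Finset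

namespace Pool.Agent.H70.AE

open Classical in
lemma b2_one {V : Type} [Fintype V] (p : Sym2 V → ℝ) (p0 : ∀ e, 0 ≤ p e) (p1 : ∀ e, p e ≤ 1)
    (W : ℝ) (hW : ∀ v, ∑ u, p s(v, u) ≤ W) (m : ℕ) (j : Fin (m + 2)) (x y : V) :
    ∑ v ∈ univ.filter (fun v : Fin (m + 2) → V => v j = x ∧ v (j + 1) = y),
      ∏ i, p s(v i, v (i + 1)) ≤ p s(x, y) * W ^ m := by
  have h := cw (fun a b => p s(a, b)) (fun a b => p0 _) (fun a b => p1 _) W hW m j x y
  have h2 : ∑ v ∈ univ.filter (fun v : Fin (m + 2) → V => v j = x ∧ v (j + 1) = y),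
      ∏ i, p s(v i, v (i + 1)) = p s(x, y) *
      ∑ v ∈ univ.filter (fun v : Fin (m + 2) → V => v j = x ∧ v (j + 1) = y),
      ∏ i ∈ univ.erase j, p s(v i, v (i + 1)) := by
    rw [mul_sum]
    refine sum_congr rfl fun v hv => ?_
    simp only [mem_filter, mem_univ, true_and] at hv
    rw [← mul_prod_erase univ (fun i => p s(v i, v (i + 1))) (mem_univ j), hv.1, hv.2]
  rw [h2]
  exact mul_le_mul_of_nonneg_left h (p0 _)

open Classical in
lemma b2_gen {V : Type} [Fintype V] (p : Sym2 V → ℝ) (p0 : ∀ e, 0 ≤ p e) (p1 : ∀ e, p e ≤ 1)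
    (W : ℝ) (hW : ∀ v, ∑ u, p s(v, u) ≤ W) (m : ℕ) (e : Sym2 V) :
    ∑ v ∈ univ.filter (fun v : Fin (m + 2) → V => ∃ i, e = s(v i, v (i + 1))),
      ∏ i, p s(v i, v (i + 1)) ≤ 2 * ((m : ℝ) + 2) * p e * W ^ m := by
  have P0 : ∀ v : Fin (m + 2) → V, 0 ≤ ∏ i, p s(v i, v (i + 1)) := fun v =>
    prod_nonneg fun i _ => p0 _
  have h1 : ∑ v ∈ univ.filter (fun v : Fin (m + 2) → V => ∃ i, e = s(v i, v (i + 1))),
      ∏ i, p s(v i, v (i + 1)) ≤ ∑ j : Fin (m + 2),
      ∑ v ∈ univ.filter (fun v : Fin (m + 2) → V => e = s(v j, v (j + 1))),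
        ∏ i, p s(v i, v (i + 1)) := by
    rw [sum_filter]
    simp_rw [sum_filter]
    rw [sum_comm]
    refine sum_le_sum fun v _ => ?_
    by_cases hv : ∃ i, e = s(v i, v (i + 1))
    · rw [if_pos hv]
      obtain ⟨j, hj⟩ := hv
      have : (if e = s(v j, v (j + 1)) then ∏ i, p s(v i, v (i + 1)) else 0)
          ≤ ∑ j : Fin (m + 2), (if e = s(v j, v (j + 1)) then ∏ i, p s(v i, v (i + 1)) else 0) := by
        refine single_le_sum (f := fun j : Fin (m + 2) =>
          (if e = s(v j, v (j + 1)) then ∏ i, p s(v i, v (i + 1)) else 0)) ?_ (mem_univ j)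
        intro k _
        split_ifs
        · exact P0 v
        · exact le_rfl
      rw [if_pos hj] at this
      exact this
    · rw [if_neg hv]
      refine sum_nonneg fun j _ => ?_
      split_ifs
      · exact P0 v
      · exact le_rfl
  have h2 : ∀ j : Fin (m + 2),
      ∑ v ∈ univ.filter (fun v : Fin (m + 2) → V => e = s(v j, v (j + 1))),
        ∏ i, p s(v i, v (i + 1)) ≤ 2 * (p e * W ^ m) := by
    intro j
    induction e using Sym2.ind with
    | _ x y =>
      have hx := b2_one p p0 p1 W hW m j x y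
      have hy := b2_one p p0 p1 W hW m j y x
      rw [show s(y, x) = s(x, y) from Sym2.eq_swap] at hy
      have hs : ∑ v ∈ univ.filter (fun v : Fin (m + 2) → V => s(x, y) = s(v j, v (j + 1))),
          ∏ i, p s(v i, v (i + 1)) ≤
          ∑ v ∈ univ.filter (fun v : Fin (m + 2) → V => v j = x ∧ v (j + 1) = y),
            ∏ i, p s(v i, v (i + 1)) +
          ∑ v ∈ univ.filter (fun v : Fin (m + 2) → V => v j = y ∧ v (j + 1) = x),
            ∏ i, p s(v i, v (i + 1)) := by
        rw [sum_filter, sum_filter, sum_filter, ← sum_add_distrib]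
        refine sum_le_sum fun v _ => ?_
        have hP := P0 v
        by_cases ha : v j = x ∧ v (j + 1) = y
        · have he : s(x, y) = s(v j, v (j + 1)) := by rw [ha.1, ha.2]
          rw [if_pos he, if_pos ha]
          split_ifs <;> linarith
        · by_cases hb : v j = y ∧ v (j + 1) = x
          · have he : s(x, y) = s(v j, v (j + 1)) := by rw [hb.1, hb.2]; exact Sym2.eq_swap
            rw [if_pos he, if_neg ha, if_pos hb]
            linarith
          · have he : ¬ s(x, y) = s(v j, v (j + 1)) := by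
              intro he
              rw [Sym2.eq_iff] at he
              rcases he with ⟨h1, h2⟩ | ⟨h1, h2⟩
              · exact ha ⟨h1.symm, h2.symm⟩
              · exact hb ⟨h2.symm, h1.symm⟩
            rw [if_neg he, if_neg ha, if_neg hb]
            linarith
      linarith
  refine h1.trans ((sum_le_sum fun j _ => h2 j).trans ?_)
  rw [sum_const, card_univ, Fintype.card_fin, nsmul_eq_mul]
  push_cast
  exact le_of_eq (by ring)

open Classical in
theorem b2 {V : Type} [Fintype V] (p : Sym2 V → ℝ) (p0 : ∀ e, 0 ≤ p e) (p1 : ∀ e, p e ≤ 1)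
    (W : ℝ) (hW : ∀ v, ∑ u, p s(v, u) ≤ W) (n : ℕ) (e : Sym2 V) :
    ∑ v ∈ univ.filter (fun v : Fin (2 * n + 4) → V => ∃ i, e = s(v i, v (i + 1))),
      ∏ i, p s(v i, v (i + 1)) ≤ 2 * (2 * n + 4) * p e * W ^ (2 * n + 2) := by
  have h := b2_gen p p0 p1 W hW (2 * n + 2) e
  have hc : 2 * (((2 * n + 2 : ℕ) : ℝ) + 2) * p e * W ^ (2 * n + 2)
      = 2 * (2 * n + 4) * p e * W ^ (2 * n + 2) := by
    push_cast
    ring
  rw [hc] at h
  exact h

end Pool.Agent.H70.AE
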