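import Pool.Agent.H70.AE.B2

/-!
# AE-B2TOT: cycles in two new colours, total weight at a variable

Proof. For fixed `n` the inner sums are `(q ^ 2) * (2 / q) ^ (2n+4) * ∑_v ∏ p` (`Finset.prod_div_distrib`/`Finset.prod_mul_distrib`;
the summand does not depend on the colours), by `b2` at most
`q ^ 2 * (2/q) ^ (2n+4) * 2 (2n+4) p e W ^ (2n+2) = 8 (2n+4) p e ρ ^ (2n+2)` with `ρ = 2 W / q ≤ 1/128`. And
`8 (2n+4) ρ ^ (2n+2) ≤ 32 (n+1) (1/128) ^ (2n+2) ≤ (1/32) (1/2) ^ (n+1)`; the sum over `n` is at most `1/32` (geometric series).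
(`0 ≤ W`: if `V` is empty then `Sym2 V` is empty; otherwise from `hW`.)
-/

set_option autoImplicit false

open Finset

namespace Pool.Agent.H70.AE

/-- the numerical bound -/
lemma b2tot_num (n : ℕ) (r : ℝ) (r0 : 0 ≤ r) (r1 : r ≤ 1 / 128) :
    8 * (2 * (n : ℝ) + 4) * r ^ (2 * n + 2) ≤ (1 / 32) * (1 / 2) ^ (n + 1) := by
  have h1 : r ^ (2 * n + 2) ≤ (1 / 16384) ^ (n + 1) := by
    have : r ^ (2 * n + 2) = (r ^ 2) ^ (n + 1) := by
      rw [← pow_mul]
      congr 1
    rw [this]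
    refine pow_le_pow_left₀ (by positivity) ?_ _
    nlinarith
  have h2 : ((n : ℝ) + 1) ≤ 2 ^ n := by
    have := @Nat.lt_two_pow_self n
    have h3 : n + 1 ≤ 2 ^ n := this
    exact_mod_cast h3
  have h4 : (2 * (n : ℝ) + 4) ≤ 4 * 2 ^ n := by linarith
  calc 8 * (2 * (n : ℝ) + 4) * r ^ (2 * n + 2)
      ≤ 8 * (4 * 2 ^ n) * (1 / 16384) ^ (n + 1) := by
        apply mul_le_mul _ h1 (by positivity) (by positivity)
        linarith
    _ = 16 * (1 / 8192) ^ (n + 1) := by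
        have : (1 / 8192 : ℝ) ^ (n + 1) = 2 ^ (n + 1) * (1 / 16384) ^ (n + 1) := by
          rw [← mul_pow]
          norm_num
        rw [this, pow_succ (2 : ℝ) n]
        ring
    _ ≤ (1 / 32) * (1 / 2) ^ (n + 1) := by
        have e1 : (1 / 8192 : ℝ) ^ (n + 1) = (1 / 4096) ^ (n + 1) * (1 / 2) ^ (n + 1) := by
          rw [← mul_pow]
          norm_num
        have e2 : (1 / 4096 : ℝ) ^ (n + 1) ≤ 1 / 4096 := by
          rw [pow_succ]
          have : (1 / 4096 : ℝ) ^ n ≤ 1 := pow_le_one₀ (by norm_num) (by norm_num)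
          linarith
        rw [e1]
        have e3 : (0 : ℝ) ≤ (1 / 2) ^ (n + 1) := by positivity
        nlinarith

/-- a geometric sum -/
lemma b2tot_geom (N : ℕ) : ∑ n ∈ range N, (1 / 32 : ℝ) * (1 / 2) ^ (n + 1) ≤ 1 / 16 := by
  have : ∑ n ∈ range N, (1 / 32 : ℝ) * (1 / 2) ^ (n + 1) = 1 / 32 * (1 - (1 / 2) ^ N) := by
    induction N with
    | zero => simp
    | succ N ih =>
      rw [sum_range_succ, ih, pow_succ]
      ring
  rw [this]
  have : (0 : ℝ) ≤ (1 / 2) ^ N := by positivity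
  linarith

open Classical in
theorem b2tot {V : Type} [Fintype V] (p : Sym2 V → ℝ) (p0 : ∀ e, 0 ≤ p e) (p1 : ∀ e, p e ≤ 1)
    (W : ℝ) (hW : ∀ v, ∑ u, p s(v, u) ≤ W) (q : ℕ) (q0 : 0 < q) (hq : 256 * W ≤ q) (N : ℕ)
    (e : Sym2 V) :
    ∑ n ∈ range N,
      ∑ v ∈ univ.filter (fun v : Fin (2 * n + 4) → V => ∃ i, e = s(v i, v (i + 1))),
        ∑ _z : Fin q × Fin q, ∏ i, (2 * p s(v i, v (i + 1)) / q) ≤ p e / 16 := by
  have W0 : 0 ≤ W := by
    induction e using Sym2.ind with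
    | _ x y => exact (sum_nonneg fun u _ => p0 s(x, u)).trans (hW x)
  have Q0 : (0 : ℝ) < q := by exact_mod_cast q0
  have hr1 : 2 * W / q ≤ 1 / 128 := by
    rw [div_le_iff₀ Q0]
    linarith
  have hr0 : 0 ≤ 2 * W / q := by positivity
  have key : ∀ n : ℕ, ∑ v ∈ univ.filter (fun v : Fin (2 * n + 4) → V => ∃ i, e = s(v i, v (i + 1))),
        ∑ _z : Fin q × Fin q, ∏ i, (2 * p s(v i, v (i + 1)) / q) ≤
      p e * ((1 / 32) * (1 / 2) ^ (n + 1)) := by
    intro n
    have h1 := b2 p p0 p1 W hW n e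
    have h2 : ∀ v : Fin (2 * n + 4) → V,
        ∑ _z : Fin q × Fin q, ∏ i, (2 * p s(v i, v (i + 1)) / q) =
        (q : ℝ) ^ 2 * (2 / q) ^ (2 * n + 4) * ∏ i, p s(v i, v (i + 1)) := by
      intro v
      rw [sum_const, card_univ, Fintype.card_prod, Fintype.card_fin, nsmul_eq_mul]
      have : ∀ i : Fin (2 * n + 4), 2 * p s(v i, v (i + 1)) / q = 2 / q * p s(v i, v (i + 1)) := by
        intro i
        ring
      rw [prod_congr rfl fun i _ => this i, prod_mul_distrib, prod_const, card_univ,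
        Fintype.card_fin]
      push_cast
      ring
    rw [sum_congr rfl fun v _ => h2 v, ← mul_sum]
    calc (q : ℝ) ^ 2 * (2 / q) ^ (2 * n + 4) *
          ∑ v ∈ univ.filter (fun v : Fin (2 * n + 4) → V => ∃ i, e = s(v i, v (i + 1))),
            ∏ i, p s(v i, v (i + 1))
        ≤ (q : ℝ) ^ 2 * (2 / q) ^ (2 * n + 4) *
            (2 * (2 * n + 4) * p e * W ^ (2 * n + 2)) := by
          apply mul_le_mul_of_nonneg_left _ (by positivity)
          exact h1
      _ = p e * (8 * (2 * (n : ℝ) + 4) * (2 * W / q) ^ (2 * n + 2)) := by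
          have e1 : (2 * W / q) ^ (2 * n + 2) = (2 / q) ^ (2 * n + 2) * W ^ (2 * n + 2) := by
            rw [← mul_pow]
            congr 1
            ring
          have e2 : (2 / (q : ℝ)) ^ (2 * n + 4) = (2 / q) ^ (2 * n + 2) * (2 / q) ^ 2 := by
            rw [← pow_add]
          have e3 : (q : ℝ) ^ 2 * (2 / q) ^ 2 = 4 := by
            rw [← mul_pow, mul_div_cancel₀ _ Q0.ne']
            norm_num
          rw [e1, e2]
          linear_combination ((2 / (q : ℝ)) ^ (2 * n + 2) * (2 * (2 * n + 4) * p e *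
            W ^ (2 * n + 2))) * e3
      _ ≤ p e * ((1 / 32) * (1 / 2) ^ (n + 1)) :=
          mul_le_mul_of_nonneg_left (b2tot_num n _ hr0 hr1) (p0 e)
  refine (sum_le_sum fun n _ => key n).trans ?_
  rw [← mul_sum]
  have := mul_le_mul_of_nonneg_left (b2tot_geom N) (p0 e)
  linarith

end Pool.Agent.H70.AE
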