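import Pool.Agent.H70.AE.CW

/-!
# AE-B3: closed sequences alternating between special edges and edges of one old colour `a`

`z = (x, y)`, special edges `s(x i, y i)`, old edges `y i`, `x (i+1)` of colour `a`.

Proof. Let `M s t = ∑ u, if R u t = some a then p s(s,u) else 0`. By `Rp`, `Rs` at most one `u` has `R u t = some a`, so
`M ≤ 1`; and `∑ t, M s t ≤ ∑ u, p s(s,u) ≤ W` because each `u` has at most one `t` with `R u t = some a` (exchange the sums).
The sum over `y` for fixed `x` of `∏ i [R (y i) (x (i+1)) = some a] p s(x i, y i)` is `∏ i, M (x i) (x (i+1))`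
(`Finset.prod_univ_sum`/`Fintype.prod_sum`). With `e = s(b,c)`: the sum is at most the sum over `j` and over the two
orientations `(x j, y j) = (b,c)` or `(c,b)`; for `(b,c)`: `x j = b`, `y j = c`, `x (j+1)` must be the vertex `c'` with
`R c c' = some a` (if there is none the sum is `0`), the factor of `i = j` is `p e`, and for the other indices sum over `y i`
(`i ≠ j`) to get `∏ i ∈ univ.erase j, M (x i) (x (i+1))`; `cw` (with `m = n`) gives `W ^ n`. Total `(n+2) * 2 * p e * W ^ n`.
-/

set_option autoImplicit false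

open Finset

namespace Pool.Agent.H70.AE

theorem b3_unique {V : Type} [Fintype V] (P : V → Prop) [DecidablePred P] (g : V → ℝ) (B : ℝ)
    (hB : 0 ≤ B) (hg : ∀ u, g u ≤ B) (hP : ∀ u u', P u → P u' → u = u') :
    ∑ u, (if P u then g u else 0) ≤ B := by
  by_cases h : ∃ u, P u
  · obtain ⟨u, hu⟩ := h
    rw [Finset.sum_eq_single u]
    · rw [if_pos hu]
      exact hg u
    · intro b _ hb
      rw [if_neg]
      intro hPb
      exact hb (hP b u hPb hu)
    · intro h
      exact absurd (mem_univ u) h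
  · rw [Finset.sum_eq_zero]
    · exact hB
    · intro u _
      rw [if_neg (fun hu => h ⟨u, hu⟩)]

theorem b3_fix {I V : Type} [Fintype I] [DecidableEq I] [Fintype V] [DecidableEq V] (j : I)
    (c : V) (g : I → V → ℝ) :
    ∑ y : I → V, (if y j = c then ∏ i ∈ univ.erase j, g i (y i) else 0) =
      ∏ i ∈ univ.erase j, ∑ u, g i u := by
  have h := Finset.prod_univ_sum (fun _ : I => (univ : Finset V))
    (fun i u => if i = j then (if u = c then (1 : ℝ) else 0) else g i u)
  rw [Fintype.piFinset_univ] at h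
  rw [← Finset.mul_prod_erase univ _ (mem_univ j)] at h
  have h1 : ∏ i ∈ univ.erase j, ∑ u, (if i = j then (if u = c then (1 : ℝ) else 0) else g i u) =
      ∏ i ∈ univ.erase j, ∑ u, g i u := by
    refine Finset.prod_congr rfl fun i hi => ?_
    refine Finset.sum_congr rfl fun u _ => ?_
    rw [if_neg (Finset.ne_of_mem_erase hi)]
  rw [h1] at h
  have h2 : ∑ u, (if j = j then (if u = c then (1 : ℝ) else 0) else g j u) = 1 := by
    simp
  rw [h2, one_mul] at h
  rw [h]
  refine Finset.sum_congr rfl fun y _ => ?_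
  rw [← Finset.mul_prod_erase univ _ (mem_univ j)]
  have h3 : ∏ i ∈ univ.erase j, (if i = j then (if y i = c then (1 : ℝ) else 0) else g i (y i)) =
      ∏ i ∈ univ.erase j, g i (y i) := by
    refine Finset.prod_congr rfl fun i hi => ?_
    rw [if_neg (Finset.ne_of_mem_erase hi)]
  rw [h3, if_pos rfl]
  split_ifs with h4
  · rw [one_mul]
  · rw [zero_mul]

open Classical in
/-- the part of the sum with a prescribed oriented special edge at position `j` -/
theorem b3_part {V : Type} [Fintype V] {K : ℕ} (R : V → V → Option (Fin K))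
    (Rs : ∀ u v, R u v = R v u)
    (Rp : ∀ u v w c, R u v = some c → R u w = some c → v = w)
    (p : Sym2 V → ℝ) (p0 : ∀ e, 0 ≤ p e) (p1 : ∀ e, p e ≤ 1)
    (W : ℝ) (hW : ∀ v, ∑ u, p s(v, u) ≤ W) (n : ℕ) (a : Fin K) (j : Fin (n + 2)) (b c : V) :
    ∑ z : (Fin (n + 2) → V) × (Fin (n + 2) → V),
      (if (∀ i, R (z.2 i) (z.1 (i + 1)) = some a) ∧ z.1 j = b ∧ z.2 j = c then
        ∏ i, p s(z.1 i, z.2 i) else 0) ≤ p s(b, c) * W ^ n := by
  have hW0 : 0 ≤ W := (Finset.sum_nonneg fun u _ => p0 s(b, u)).trans (hW b)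
  by_cases hc : ∃ c', R c c' = some a
  · obtain ⟨c', hc'⟩ := hc
    set M : V → V → ℝ := fun s t => ∑ u, (if R u t = some a then p s(s, u) else 0) with hM
    have M0 : ∀ s t, 0 ≤ M s t := by
      intro s t
      refine Finset.sum_nonneg fun u _ => ?_
      split_ifs
      · exact p0 _
      · exact le_rfl
    have M1 : ∀ s t, M s t ≤ 1 := by
      intro s t
      refine b3_unique _ _ 1 zero_le_one (fun u => p1 _) ?_
      intro u u' hu hu'
      exact Rp t u u' a (by rw [Rs]; exact hu) (by rw [Rs]; exact hu')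
    have MW : ∀ s, ∑ t, M s t ≤ W := by
      intro s
      simp only [hM]
      rw [Finset.sum_comm]
      refine le_trans (Finset.sum_le_sum fun u _ => ?_) (hW s)
      refine b3_unique _ _ _ (p0 _) (fun _ => le_rfl) ?_
      intro t t' ht ht'
      exact Rp u t t' a ht ht'
    rw [Fintype.sum_prod_type]
    have hx : ∀ x : Fin (n + 2) → V, ∑ y : Fin (n + 2) → V,
        (if (∀ i, R (y i) (x (i + 1)) = some a) ∧ x j = b ∧ y j = c then
          ∏ i, p s(x i, y i) else 0) ≤
        if x j = b ∧ x (j + 1) = c' then p s(b, c) * ∏ i ∈ univ.erase j, M (x i) (x (i + 1))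
          else 0 := by
      intro x
      by_cases hxx : x j = b ∧ x (j + 1) = c'
      · rw [if_pos hxx]
        have h1 := b3_fix j c (fun i u => if R u (x (i + 1)) = some a then p s(x i, u) else 0)
        have h2 : ∏ i ∈ univ.erase j, M (x i) (x (i + 1)) = ∏ i ∈ univ.erase j,
            ∑ u, (if R u (x (i + 1)) = some a then p s(x i, u) else 0) := rfl
        rw [h2, ← h1, Finset.mul_sum]
        refine Finset.sum_le_sum fun y _ => ?_
        split_ifs with h3 h4 h4
        · rw [← Finset.mul_prod_erase univ _ (mem_univ j), h3.2.1, h3.2.2]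
          refine le_of_eq ?_
          congr 1
          refine Finset.prod_congr rfl fun i _ => ?_
          rw [if_pos (h3.1 i)]
        · exact absurd h3.2.2 h4
        · refine mul_nonneg (p0 _) (Finset.prod_nonneg fun i _ => ?_)
          split_ifs
          · exact p0 _
          · exact le_rfl
        · rw [mul_zero]
      · rw [if_neg hxx]
        refine le_of_eq (Finset.sum_eq_zero fun y _ => ?_)
        rw [if_neg]
        rintro ⟨h3, h4, h5⟩
        refine hxx ⟨h4, ?_⟩
        have h6 := h3 j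
        rw [h5] at h6
        exact Rp c _ _ a h6 hc'
    refine (Finset.sum_le_sum fun x _ => hx x).trans ?_
    rw [← Finset.sum_filter, ← Finset.mul_sum]
    exact mul_le_mul_of_nonneg_left (cw M M0 M1 W MW n j b c') (p0 _)
  · refine le_trans (le_of_eq (Finset.sum_eq_zero fun z _ => ?_))
      (mul_nonneg (p0 _) (pow_nonneg hW0 n))
    rw [if_neg]
    rintro ⟨h3, h4, h5⟩
    have h6 := h3 j
    rw [h5] at h6
    exact hc ⟨_, h6⟩

open Classical in
theorem b3 {V : Type} [Fintype V] {K : ℕ} (R : V → V → Option (Fin K))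
    (Rs : ∀ u v, R u v = R v u)
    (Rp : ∀ u v w c, R u v = some c → R u w = some c → v = w)
    (p : Sym2 V → ℝ) (p0 : ∀ e, 0 ≤ p e) (p1 : ∀ e, p e ≤ 1)
    (W : ℝ) (hW : ∀ v, ∑ u, p s(v, u) ≤ W) (n : ℕ) (a : Fin K) (e : Sym2 V) :
    ∑ z ∈ univ.filter (fun z : (Fin (n + 2) → V) × (Fin (n + 2) → V) =>
        (∀ i, R (z.2 i) (z.1 (i + 1)) = some a) ∧ ∃ i, e = s(z.1 i, z.2 i)),
      ∏ i, p s(z.1 i, z.2 i) ≤ 2 * (n + 2) * p e * W ^ n := by
  induction e using Sym2.ind with
  | _ b c =>
    set w : (Fin (n + 2) → V) × (Fin (n + 2) → V) → ℝ := fun z => ∏ i, p s(z.1 i, z.2 i) with hw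
    have hw0 : ∀ z, 0 ≤ w z := fun z => Finset.prod_nonneg fun i _ => p0 _
    have hB := fun j => b3_part R Rs Rp p p0 p1 W hW n a j b c
    have hC := fun j => b3_part R Rs Rp p p0 p1 W hW n a j c b
    rw [Finset.sum_filter]
    have h1 : ∀ z : (Fin (n + 2) → V) × (Fin (n + 2) → V),
        (if (∀ i, R (z.2 i) (z.1 (i + 1)) = some a) ∧ ∃ i, s(b, c) = s(z.1 i, z.2 i) then
          w z else 0) ≤ ∑ j : Fin (n + 2),
          ((if (∀ i, R (z.2 i) (z.1 (i + 1)) = some a) ∧ z.1 j = b ∧ z.2 j = c then w z else 0) +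
          (if (∀ i, R (z.2 i) (z.1 (i + 1)) = some a) ∧ z.1 j = c ∧ z.2 j = b then w z else 0)) := by
      intro z
      have hnn : ∀ (P : Prop) [Decidable P], 0 ≤ (if P then w z else 0) := by
        intro P _
        split_ifs
        · exact hw0 z
        · exact le_rfl
      by_cases hz : (∀ i, R (z.2 i) (z.1 (i + 1)) = some a) ∧ ∃ i, s(b, c) = s(z.1 i, z.2 i)
      · rw [if_pos hz]
        obtain ⟨hz1, j, hj⟩ := hz
        refine le_trans ?_ (Finset.single_le_sum (f := fun j : Fin (n + 2) =>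
          ((if (∀ i, R (z.2 i) (z.1 (i + 1)) = some a) ∧ z.1 j = b ∧ z.2 j = c then w z else 0) +
          (if (∀ i, R (z.2 i) (z.1 (i + 1)) = some a) ∧ z.1 j = c ∧ z.2 j = b then w z else 0)))
          (fun k _ => add_nonneg (hnn _) (hnn _)) (mem_univ j))
        rcases Sym2.eq_iff.1 hj with ⟨h2, h3⟩ | ⟨h2, h3⟩
        · have h4 : (∀ i, R (z.2 i) (z.1 (i + 1)) = some a) ∧ z.1 j = b ∧ z.2 j = c :=
            ⟨hz1, h2.symm, h3.symm⟩
          simp only [if_pos h4]
          exact le_add_of_nonneg_right (hnn _)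
        · have h4 : (∀ i, R (z.2 i) (z.1 (i + 1)) = some a) ∧ z.1 j = c ∧ z.2 j = b :=
            ⟨hz1, h3.symm, h2.symm⟩
          simp only [if_pos h4]
          exact le_add_of_nonneg_left (hnn _)
      · rw [if_neg hz]
        exact Finset.sum_nonneg fun j _ => add_nonneg (hnn _) (hnn _)
    refine (Finset.sum_le_sum fun z _ => h1 z).trans ?_
    rw [Finset.sum_comm]
    have h2 : ∀ j : Fin (n + 2), ∑ z : (Fin (n + 2) → V) × (Fin (n + 2) → V),
          ((if (∀ i, R (z.2 i) (z.1 (i + 1)) = some a) ∧ z.1 j = b ∧ z.2 j = c then w z else 0) +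
          (if (∀ i, R (z.2 i) (z.1 (i + 1)) = some a) ∧ z.1 j = c ∧ z.2 j = b then w z else 0)) ≤
        p s(b, c) * W ^ n + p s(b, c) * W ^ n := by
      intro j
      rw [Finset.sum_add_distrib]
      have h3 := hC j
      rw [show s(c, b) = s(b, c) from Sym2.eq_swap] at h3
      exact add_le_add (hB j) h3
    refine (Finset.sum_le_sum fun j _ => h2 j).trans (le_of_eq ?_)
    rw [Finset.sum_const, Finset.card_univ, Fintype.card_fin, nsmul_eq_mul]
    push_cast
    ring

end Pool.Agent.H70.AE
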