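import Pool.Agent.H70.AE.Defs

/-!
# AE-B3TWO: four-cycles with two special edges and two edges of an old colour

Here `z = (x, y)` with `x, y : Fin 2 → V`, special edges `s(x 0, y 0)`, `s(x 1, y 1)`, old edges `y 0, x 1` and `y 1, x 0` of colour
`a`. Proof. Let `e = s(b,c)`. If `p e = 0` all terms vanish. Otherwise four cases: `e = s(x j, y j)`, `j = 0, 1`, two
orientations. In each the other special edge `s(x (j+1), y (j+1))` joins an `a`-neighbour of `y j` and an `a`-neighbour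
of `x j`; so the sum over `a` and `z` is at most `p e * ∑ a, ∑ u', ∑ v', [R u u' = some a ∧ R v v' = some a] p s(u',v') ≤ p e * m` with
`(u,v) = (x j, y j)` and `(u', v') = (y (j+1), x (j+1))`; use `hm` for `(b,c)` or `(c,b)` and `Sym2.eq_swap`.
-/

set_option autoImplicit false

open Finset

namespace Pool.Agent.H70.AE

lemma b3two_count {V : Type} [Fintype V] [DecidableEq V] (e : Sym2 V) :
    ((univ : Finset (V × V)).filter (fun x => e = s(x.1, x.2))).card ≤ 2 := by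
  induction e using Sym2.ind with
  | _ x y =>
    have hsub : (univ : Finset (V × V)).filter (fun z => s(x, y) = s(z.1, z.2))
        ⊆ {(x, y), (y, x)} := by
      intro z hz
      simp only [mem_filter, mem_univ, true_and, Sym2.eq_iff] at hz
      simp only [mem_insert, mem_singleton]
      rcases hz with ⟨h1, h2⟩ | ⟨h1, h2⟩
      · left; ext <;> simp [h1, h2]
      · right; ext <;> simp [h1, h2]
    exact (card_le_card hsub).trans (card_le_two)

open Classical in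
lemma b3two_half {V : Type} [Fintype V] {K : ℕ} (R : V → V → Option (Fin K))
    (p : Sym2 V → ℝ) (p0 : ∀ e, 0 ≤ p e) (m : ℝ) (m0 : 0 ≤ m)
    (hm : ∀ u v, p s(u, v) ≠ 0 → ∑ a : Fin K, ∑ u' : V, ∑ v' : V,
      (if R u u' = some a ∧ R v v' = some a then p s(u', v') else 0) ≤ m) (e : Sym2 V)
    (he : p e ≠ 0) :
    ∑ a : Fin K, ∑ u : V, ∑ v : V, ∑ u' : V, ∑ v' : V,
      (if e = s(u, v) ∧ R u u' = some a ∧ R v v' = some a then p e * p s(u', v') else 0)
      ≤ 2 * p e * m := by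
  have h1 : ∑ a : Fin K, ∑ u : V, ∑ v : V, ∑ u' : V, ∑ v' : V,
      (if e = s(u, v) ∧ R u u' = some a ∧ R v v' = some a then p e * p s(u', v') else 0)
      = ∑ u : V, ∑ v : V, (if e = s(u, v) then p e * ∑ a : Fin K, ∑ u' : V, ∑ v' : V,
        (if R u u' = some a ∧ R v v' = some a then p s(u', v') else 0) else 0) := by
    rw [sum_comm]
    refine sum_congr rfl fun u _ => ?_
    rw [sum_comm]
    refine sum_congr rfl fun v _ => ?_
    by_cases h : e = s(u, v)
    · rw [if_pos h, mul_sum]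
      refine sum_congr rfl fun a _ => ?_
      rw [mul_sum]
      refine sum_congr rfl fun u' _ => ?_
      rw [mul_sum]
      refine sum_congr rfl fun v' _ => ?_
      by_cases h2 : R u u' = some a ∧ R v v' = some a
      · rw [if_pos h2, if_pos ⟨h, h2⟩]
      · rw [if_neg h2, if_neg (fun h3 => h2 h3.2), mul_zero]
    · rw [if_neg h]
      refine sum_eq_zero fun a _ => sum_eq_zero fun u' _ => sum_eq_zero fun v' _ => ?_
      rw [if_neg (fun h3 => h h3.1)]
  rw [h1]
  have h2 : ∀ u v : V, (if e = s(u, v) then p e * ∑ a : Fin K, ∑ u' : V, ∑ v' : V,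
        (if R u u' = some a ∧ R v v' = some a then p s(u', v') else 0) else 0)
      ≤ (if e = s(u, v) then p e * m else 0) := by
    intro u v
    by_cases h : e = s(u, v)
    · rw [if_pos h, if_pos h]
      exact mul_le_mul_of_nonneg_left (hm u v (h ▸ he)) (p0 e)
    · rw [if_neg h, if_neg h]
  calc ∑ u : V, ∑ v : V, (if e = s(u, v) then p e * ∑ a : Fin K, ∑ u' : V, ∑ v' : V,
        (if R u u' = some a ∧ R v v' = some a then p s(u', v') else 0) else 0)
      ≤ ∑ u : V, ∑ v : V, (if e = s(u, v) then p e * m else 0) :=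
        sum_le_sum fun u _ => sum_le_sum fun v _ => h2 u v
    _ = ∑ x : V × V, (if e = s(x.1, x.2) then p e * m else 0) := by
        rw [Fintype.sum_prod_type]
    _ = (((univ : Finset (V × V)).filter (fun x => e = s(x.1, x.2))).card : ℝ) * (p e * m) := by
        rw [← sum_filter, sum_const, nsmul_eq_mul]
    _ ≤ 2 * (p e * m) := by
        have hc : (((univ : Finset (V × V)).filter (fun x => e = s(x.1, x.2))).card : ℝ) ≤ 2 := by
          exact_mod_cast b3two_count e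
        exact mul_le_mul_of_nonneg_right hc (mul_nonneg (p0 e) m0)
    _ = 2 * p e * m := by ring

open Classical in
lemma b3two_flat {V : Type} [Fintype V] {K : ℕ} (R : V → V → Option (Fin K))
    (Rs : ∀ u v, R u v = R v u)
    (p : Sym2 V → ℝ) (p0 : ∀ e, 0 ≤ p e) (m : ℝ)
    (hm : ∀ u v, p s(u, v) ≠ 0 → ∑ a : Fin K, ∑ u' : V, ∑ v' : V,
      (if R u u' = some a ∧ R v v' = some a then p s(u', v') else 0) ≤ m) (e : Sym2 V) :
    ∑ a : Fin K, ∑ x0 : V, ∑ x1 : V, ∑ y0 : V, ∑ y1 : V,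
      (if (R y0 x1 = some a ∧ R y1 x0 = some a) ∧ (e = s(x0, y0) ∨ e = s(x1, y1)) then
        p s(x0, y0) * p s(x1, y1) else 0) ≤ 4 * p e * m := by
  by_cases he : p e = 0
  · rw [he]
    have : ∑ a : Fin K, ∑ x0 : V, ∑ x1 : V, ∑ y0 : V, ∑ y1 : V,
      (if (R y0 x1 = some a ∧ R y1 x0 = some a) ∧ (e = s(x0, y0) ∨ e = s(x1, y1)) then
        p s(x0, y0) * p s(x1, y1) else 0) = 0 := by
      refine sum_eq_zero fun a _ => sum_eq_zero fun x0 _ => sum_eq_zero fun x1 _ =>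
        sum_eq_zero fun y0 _ => sum_eq_zero fun y1 _ => ?_
      split_ifs with h
      · rcases h.2 with h | h
        · rw [← h, he, zero_mul]
        · rw [← h, he, mul_zero]
      · rfl
    rw [this]
    simp
  have m0 : 0 ≤ m := by
    induction e using Sym2.ind with
    | _ x y =>
      refine le_trans ?_ (hm x y he)
      refine sum_nonneg fun a _ => sum_nonneg fun u' _ => sum_nonneg fun v' _ => ?_
      split_ifs
      · exact p0 _
      · exact le_rfl
  have hh := b3two_half R p p0 m m0 hm e he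
  have hpt : ∀ (a : Fin K) (x0 x1 y0 y1 : V),
      (if (R y0 x1 = some a ∧ R y1 x0 = some a) ∧ (e = s(x0, y0) ∨ e = s(x1, y1)) then
        p s(x0, y0) * p s(x1, y1) else 0)
      ≤ (if e = s(y0, x0) ∧ R y0 x1 = some a ∧ R x0 y1 = some a then p e * p s(x1, y1) else 0)
      + (if e = s(y1, x1) ∧ R y1 x0 = some a ∧ R x1 y0 = some a then p e * p s(x0, y0) else 0) := by
    intro a x0 x1 y0 y1
    have e1 : s(y0, x0) = s(x0, y0) := Sym2.eq_swap
    have e2 : s(y1, x1) = s(x1, y1) := Sym2.eq_swap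
    rw [e1, e2, Rs x0 y1, Rs x1 y0]
    have hA : 0 ≤ (if e = s(x0, y0) ∧ R y0 x1 = some a ∧ R y1 x0 = some a then
        p e * p s(x1, y1) else 0) := by
      split_ifs
      · exact mul_nonneg (p0 _) (p0 _)
      · exact le_rfl
    have hB : 0 ≤ (if e = s(x1, y1) ∧ R y1 x0 = some a ∧ R y0 x1 = some a then
        p e * p s(x0, y0) else 0) := by
      split_ifs
      · exact mul_nonneg (p0 _) (p0 _)
      · exact le_rfl
    by_cases h : (R y0 x1 = some a ∧ R y1 x0 = some a) ∧ (e = s(x0, y0) ∨ e = s(x1, y1))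
    · rw [if_pos h]
      rcases h.2 with h1 | h1
      · rw [if_pos (⟨h1, h.1⟩ : e = s(x0, y0) ∧ R y0 x1 = some a ∧ R y1 x0 = some a)]
        have h3 : p s(x0, y0) * p s(x1, y1) = p e * p s(x1, y1) := by rw [h1]
        linarith
      · rw [if_pos (⟨h1, h.1.2, h.1.1⟩ : e = s(x1, y1) ∧ R y1 x0 = some a ∧ R y0 x1 = some a)]
        have h3 : p s(x0, y0) * p s(x1, y1) = p e * p s(x0, y0) := by
          rw [h1]; exact mul_comm _ _
        linarith
    · rw [if_neg h]
      linarith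
  have hsum : ∑ a : Fin K, ∑ x0 : V, ∑ x1 : V, ∑ y0 : V, ∑ y1 : V,
      (if (R y0 x1 = some a ∧ R y1 x0 = some a) ∧ (e = s(x0, y0) ∨ e = s(x1, y1)) then
        p s(x0, y0) * p s(x1, y1) else 0)
      ≤ (∑ a : Fin K, ∑ x0 : V, ∑ x1 : V, ∑ y0 : V, ∑ y1 : V,
        (if e = s(y0, x0) ∧ R y0 x1 = some a ∧ R x0 y1 = some a then p e * p s(x1, y1) else 0))
      + (∑ a : Fin K, ∑ x0 : V, ∑ x1 : V, ∑ y0 : V, ∑ y1 : V,
        (if e = s(y1, x1) ∧ R y1 x0 = some a ∧ R x1 y0 = some a then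
          p e * p s(x0, y0) else 0)) := by
    simp only [← sum_add_distrib]
    exact sum_le_sum fun a _ => sum_le_sum fun x0 _ => sum_le_sum fun x1 _ =>
      sum_le_sum fun y0 _ => sum_le_sum fun y1 _ => hpt a x0 x1 y0 y1
  have hA : ∑ a : Fin K, ∑ x0 : V, ∑ x1 : V, ∑ y0 : V, ∑ y1 : V,
        (if e = s(y0, x0) ∧ R y0 x1 = some a ∧ R x0 y1 = some a then p e * p s(x1, y1) else 0)
      ≤ 2 * p e * m := by
    refine le_trans (le_of_eq ?_) hh
    refine sum_congr rfl fun a _ => ?_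
    -- x0 x1 y0 y1  ->  y0 x0 x1 y1
    calc ∑ x0 : V, ∑ x1 : V, ∑ y0 : V, ∑ y1 : V,
        (if e = s(y0, x0) ∧ R y0 x1 = some a ∧ R x0 y1 = some a then p e * p s(x1, y1) else 0)
        = ∑ x0 : V, ∑ y0 : V, ∑ x1 : V, ∑ y1 : V,
        (if e = s(y0, x0) ∧ R y0 x1 = some a ∧ R x0 y1 = some a then p e * p s(x1, y1) else 0) :=
          sum_congr rfl fun x0 _ => sum_comm
      _ = _ := sum_comm
  have hB : ∑ a : Fin K, ∑ x0 : V, ∑ x1 : V, ∑ y0 : V, ∑ y1 : V,
        (if e = s(y1, x1) ∧ R y1 x0 = some a ∧ R x1 y0 = some a then p e * p s(x0, y0) else 0)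
      ≤ 2 * p e * m := by
    refine le_trans (le_of_eq ?_) hh
    refine sum_congr rfl fun a _ => ?_
    -- x0 x1 y0 y1 -> y1 x1 x0 y0
    calc ∑ x0 : V, ∑ x1 : V, ∑ y0 : V, ∑ y1 : V,
        (if e = s(y1, x1) ∧ R y1 x0 = some a ∧ R x1 y0 = some a then p e * p s(x0, y0) else 0)
        = ∑ x0 : V, ∑ x1 : V, ∑ y1 : V, ∑ y0 : V,
        (if e = s(y1, x1) ∧ R y1 x0 = some a ∧ R x1 y0 = some a then p e * p s(x0, y0) else 0) :=
          sum_congr rfl fun x0 _ => sum_congr rfl fun x1 _ => sum_comm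
      _ = ∑ x0 : V, ∑ y1 : V, ∑ x1 : V, ∑ y0 : V,
        (if e = s(y1, x1) ∧ R y1 x0 = some a ∧ R x1 y0 = some a then p e * p s(x0, y0) else 0) :=
          sum_congr rfl fun x0 _ => sum_comm
      _ = ∑ y1 : V, ∑ x0 : V, ∑ x1 : V, ∑ y0 : V,
        (if e = s(y1, x1) ∧ R y1 x0 = some a ∧ R x1 y0 = some a then p e * p s(x0, y0) else 0) :=
          sum_comm
      _ = _ := sum_congr rfl fun y1 _ => sum_comm
  linarith

open Classical in
lemma b3two_aux {V : Type} [Fintype V] {K : ℕ} (R : V → V → Option (Fin K))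
    (Rs : ∀ u v, R u v = R v u)
    (p : Sym2 V → ℝ) (p0 : ∀ e, 0 ≤ p e) (m : ℝ)
    (hm : ∀ u v, p s(u, v) ≠ 0 → ∑ a : Fin K, ∑ u' : V, ∑ v' : V,
      (if R u u' = some a ∧ R v v' = some a then p s(u', v') else 0) ≤ m) (e : Sym2 V) :
    ∑ a : Fin K, ∑ z ∈ univ.filter (fun z : (Fin 2 → V) × (Fin 2 → V) =>
        (∀ i, R (z.2 i) (z.1 (i + 1)) = some a) ∧ ∃ i, e = s(z.1 i, z.2 i)),
      ∏ i, p s(z.1 i, z.2 i) ≤ 4 * p e * m := by
  refine le_trans (le_of_eq ?_) (b3two_flat R Rs p p0 m hm e)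
  refine sum_congr rfl fun a _ => ?_
  rw [sum_filter]
  have h2 : ∀ (f : (Fin 2 → V) × (Fin 2 → V) → ℝ), ∑ z, f z
      = ∑ x0 : V, ∑ x1 : V, ∑ y0 : V, ∑ y1 : V, f (![x0, x1], ![y0, y1]) := by
    intro f
    rw [← ((finTwoArrowEquiv V).prodCongr (finTwoArrowEquiv V)).symm.sum_comp f]
    rw [Fintype.sum_prod_type, Fintype.sum_prod_type]
    refine sum_congr rfl fun x0 _ => sum_congr rfl fun x1 _ => ?_
    rw [Fintype.sum_prod_type]
    rfl
  rw [h2]
  refine sum_congr rfl fun x0 _ => sum_congr rfl fun x1 _ => sum_congr rfl fun y0 _ =>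
    sum_congr rfl fun y1 _ => ?_
  simp [Fin.forall_fin_two, Fin.exists_fin_two, Fin.prod_univ_two]

open Classical in
theorem b3two {V : Type} [Fintype V] {K : ℕ} (R : V → V → Option (Fin K))
    (Rs : ∀ u v, R u v = R v u)
    (p : Sym2 V → ℝ) (p0 : ∀ e, 0 ≤ p e) (m : ℝ)
    (hm : ∀ u v, p s(u, v) ≠ 0 → ∑ a : Fin K, ∑ u' : V, ∑ v' : V,
      (if R u u' = some a ∧ R v v' = some a then p s(u', v') else 0) ≤ m) (e : Sym2 V) :
    ∑ a : Fin K, ∑ z ∈ univ.filter (fun z : (Fin (0 + 2) → V) × (Fin (0 + 2) → V) =>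
        (∀ i, R (z.2 i) (z.1 (i + 1)) = some a) ∧ ∃ i, e = s(z.1 i, z.2 i)),
      ∏ i, p s(z.1 i, z.2 i) ≤ 4 * p e * m := by
  exact b3two_aux R Rs p p0 m hm e

end Pool.Agent.H70.AE
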