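import Pool.Agent.H70.AE.B3
import Pool.Agent.H70.AE.B3Two

/-!
# AE-B3TOT: cycles in a new and an old colour, total weight at a variable

Proof. The summand does not depend on the new colour `α`; `∏ (2 p / q) = (2/q) ^ (n+2) * ∏ p`.
`n = 0`: by `b3two` the sum is `≤ q * (2/q)^2 * 4 p e m = 16 p e m / q ≤ p e / 16` (`hm1`).
`n ≥ 1`: by `b3` it is `≤ q * K * (2/q)^(n+2) * 2 (n+2) p e W^n = 8 (K/q) (n+2) p e ρ^n`, `ρ = 2 W / q ≤ 1/128`; as
`(n+2) ρ^n ≤ ρ (n+2) (1/128)^(n-1) ≤ 3 ρ (1/32)^(n-1)`, the sum over `n ≥ 1` is `≤ 8 (K/q) p e * 4 ρ = 64 K W p e / q^2 ≤ p e / 16`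
(`hK`). (`0 ≤ W`: if `V` is empty then `Sym2 V` is empty; otherwise from `hW`.)
-/

set_option autoImplicit false

open Finset

namespace Pool.Agent.H70.AE

private theorem b3tot_geom (N : ℕ) : ∑ k ∈ range N, ((1 : ℝ) / 32) ^ k ≤ 4 / 3 := by
  have h := geom_sum_mul_neg ((1 : ℝ) / 32) N
  have h2 : (0 : ℝ) ≤ (1 / 32) ^ N := by positivity
  linarith

private theorem b3tot_pow (k : ℕ) : ((k : ℝ) + 3) ≤ 3 * 4 ^ k := by
  induction k with
  | zero => norm_num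
  | succ k ih =>
    push_cast
    rw [pow_succ]
    have h : (1 : ℝ) ≤ 4 ^ k := one_le_pow₀ (by norm_num)
    linarith

private theorem b3tot_step {q K W P : ℝ} (hq0 : 0 < q) (hK0 : 0 ≤ K) (hW0 : 0 ≤ W) (hP : 0 ≤ P)
    (hq : 256 * W ≤ q) (k : ℕ) :
    q * (2 / q) ^ (k + 1 + 2) * (K * (2 * ((k : ℝ) + 1 + 2) * P * W ^ (k + 1))) ≤
      (48 * K * W * P / q ^ 2) * (1 / 32) ^ k := by
  have h1 : q * (2 / q) ^ (k + 1 + 2) * (K * (2 * ((k : ℝ) + 1 + 2) * P * W ^ (k + 1))) =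
      (16 * K * W * P / q ^ 2) * (((k : ℝ) + 3) * (2 * W / q) ^ k) := by
    have e1 : (2 / q) ^ (k + 1 + 2) = 2 ^ k * 8 / (q ^ k * q ^ 3) := by
      rw [div_pow, pow_add, pow_add, pow_add q, pow_add q]
      ring
    have e2 : (2 * W / q) ^ k = 2 ^ k * W ^ k / q ^ k := by
      rw [div_pow, mul_pow]
    rw [e1, e2, pow_succ W]
    field_simp
    ring
  rw [h1]
  have h2 : 2 * W / q ≤ 1 / 128 := by
    rw [div_le_iff₀ hq0]
    linarith
  have h3 : (2 * W / q) ^ k ≤ (1 / 128) ^ k := pow_le_pow_left₀ (by positivity) h2 k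
  have h4 : ((k : ℝ) + 3) * (2 * W / q) ^ k ≤ 3 * (1 / 32) ^ k := by
    calc ((k : ℝ) + 3) * (2 * W / q) ^ k ≤ (3 * 4 ^ k) * (1 / 128) ^ k :=
          mul_le_mul (b3tot_pow k) h3 (by positivity) (by positivity)
      _ = 3 * (1 / 32) ^ k := by
        rw [mul_assoc, ← mul_pow]
        norm_num
  calc (16 * K * W * P / q ^ 2) * (((k : ℝ) + 3) * (2 * W / q) ^ k)
      ≤ (16 * K * W * P / q ^ 2) * (3 * (1 / 32) ^ k) :=
        mul_le_mul_of_nonneg_left h4 (by positivity)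
    _ = _ := by ring

open Classical in
theorem b3tot {V : Type} [Fintype V] {K : ℕ} (R : V → V → Option (Fin K))
    (Rs : ∀ u v, R u v = R v u)
    (Rp : ∀ u v w c, R u v = some c → R u w = some c → v = w)
    (p : Sym2 V → ℝ) (p0 : ∀ e, 0 ≤ p e) (p1 : ∀ e, p e ≤ 1)
    (W : ℝ) (hW : ∀ v, ∑ u, p s(v, u) ≤ W) (q : ℕ) (q0 : 0 < q) (hq : 256 * W ≤ q)
    (m : ℝ)
    (hm : ∀ u v, p s(u, v) ≠ 0 → ∑ a : Fin K, ∑ u' : V, ∑ v' : V,
      (if R u u' = some a ∧ R v v' = some a then p s(u', v') else 0) ≤ m)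
    (hm1 : 256 * m ≤ q) (hK : 1024 * K * W ≤ (q : ℝ) ^ 2) (N : ℕ) (e : Sym2 V) :
    ∑ n ∈ range N, ∑ a : Fin K,
      ∑ z ∈ univ.filter (fun z : (Fin (n + 2) → V) × (Fin (n + 2) → V) =>
        (∀ i, R (z.2 i) (z.1 (i + 1)) = some a) ∧ ∃ i, e = s(z.1 i, z.2 i)),
        ∑ _α : Fin q, ∏ i, (2 * p s(z.1 i, z.2 i) / q) ≤ p e / 8 := by
  have hq0 : (0 : ℝ) < q := by exact_mod_cast q0
  have hW0 : 0 ≤ W := by
    induction e using Sym2.ind with
    | _ b c => exact (sum_nonneg (fun u _ => p0 s(b, u))).trans (hW b)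
  have hP := p0 e
  -- the value of one term
  have hT : ∀ n : ℕ, ∑ a : Fin K,
      ∑ z ∈ univ.filter (fun z : (Fin (n + 2) → V) × (Fin (n + 2) → V) =>
        (∀ i, R (z.2 i) (z.1 (i + 1)) = some a) ∧ ∃ i, e = s(z.1 i, z.2 i)),
        ∑ _α : Fin q, ∏ i, (2 * p s(z.1 i, z.2 i) / q) =
      (q : ℝ) * (2 / q) ^ (n + 2) * ∑ a : Fin K,
      ∑ z ∈ univ.filter (fun z : (Fin (n + 2) → V) × (Fin (n + 2) → V) =>
        (∀ i, R (z.2 i) (z.1 (i + 1)) = some a) ∧ ∃ i, e = s(z.1 i, z.2 i)),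
        ∏ i, p s(z.1 i, z.2 i) := by
    intro n
    rw [mul_sum]
    apply sum_congr rfl
    intro a _
    rw [mul_sum]
    apply sum_congr rfl
    intro z _
    rw [sum_const, card_univ, Fintype.card_fin, nsmul_eq_mul]
    have h1 : ∏ i, (2 * p s(z.1 i, z.2 i) / q) = (2 / (q : ℝ)) ^ (n + 2) * ∏ i, p s(z.1 i, z.2 i) := by
      have h2 : ∀ i, 2 * p s(z.1 i, z.2 i) / q = (2 / (q : ℝ)) * p s(z.1 i, z.2 i) := by
        intro i
        ring
      rw [prod_congr rfl (fun i _ => h2 i), prod_mul_distrib, prod_const, card_univ,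
        Fintype.card_fin]
    rw [h1]
    ring
  -- the term `n = 0`
  have hT0 : (q : ℝ) * (2 / q) ^ (0 + 2) * ∑ a : Fin K,
      ∑ z ∈ univ.filter (fun z : (Fin (0 + 2) → V) × (Fin (0 + 2) → V) =>
        (∀ i, R (z.2 i) (z.1 (i + 1)) = some a) ∧ ∃ i, e = s(z.1 i, z.2 i)),
        ∏ i, p s(z.1 i, z.2 i) ≤ p e / 16 := by
    have h1 := b3two R Rs p p0 m hm e
    calc _ ≤ (q : ℝ) * (2 / q) ^ (0 + 2) * (4 * p e * m) :=
          mul_le_mul_of_nonneg_left h1 (by positivity)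
      _ = (16 * m / q) * p e := by
        rw [zero_add, div_pow]
        field_simp
        ring
      _ ≤ (1 / 16) * p e := by
        apply mul_le_mul_of_nonneg_right _ hP
        rw [div_le_iff₀ hq0]
        linarith
      _ = _ := by ring
  -- the terms `n = k + 1`
  have hTk : ∀ k : ℕ, (q : ℝ) * (2 / q) ^ (k + 1 + 2) * ∑ a : Fin K,
      ∑ z ∈ univ.filter (fun z : (Fin (k + 1 + 2) → V) × (Fin (k + 1 + 2) → V) =>
        (∀ i, R (z.2 i) (z.1 (i + 1)) = some a) ∧ ∃ i, e = s(z.1 i, z.2 i)),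
        ∏ i, p s(z.1 i, z.2 i) ≤ (48 * K * W * p e / (q : ℝ) ^ 2) * (1 / 32) ^ k := by
    intro k
    have h1 : ∑ a : Fin K,
      ∑ z ∈ univ.filter (fun z : (Fin (k + 1 + 2) → V) × (Fin (k + 1 + 2) → V) =>
        (∀ i, R (z.2 i) (z.1 (i + 1)) = some a) ∧ ∃ i, e = s(z.1 i, z.2 i)),
        ∏ i, p s(z.1 i, z.2 i) ≤ (K : ℝ) * (2 * ((k : ℝ) + 1 + 2) * p e * W ^ (k + 1)) := by
      have h2 : ∀ a ∈ (univ : Finset (Fin K)), ∑ z ∈ univ.filter
          (fun z : (Fin (k + 1 + 2) → V) × (Fin (k + 1 + 2) → V) =>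
          (∀ i, R (z.2 i) (z.1 (i + 1)) = some a) ∧ ∃ i, e = s(z.1 i, z.2 i)),
          ∏ i, p s(z.1 i, z.2 i) ≤ 2 * ((k : ℝ) + 1 + 2) * p e * W ^ (k + 1) := by
        intro a _
        have h3 := b3 R Rs Rp p p0 p1 W hW (k + 1) a e
        push_cast at h3
        exact h3
      refine (sum_le_sum h2).trans ?_
      rw [sum_const, card_univ, Fintype.card_fin, nsmul_eq_mul]
    exact (mul_le_mul_of_nonneg_left h1 (by positivity)).trans
      (b3tot_step hq0 (Nat.cast_nonneg K) hW0 hP hq k)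
  rw [sum_congr rfl (fun n _ => hT n)]
  rcases N with _ | N
  · rw [range_zero, sum_empty]
    positivity
  rw [sum_range_succ']
  have h5 := (sum_le_sum (fun k (_ : k ∈ range N) => hTk k))
  rw [← mul_sum] at h5
  have h6 := mul_le_mul_of_nonneg_left (b3tot_geom N)
    (show 0 ≤ 48 * (K : ℝ) * W * p e / (q : ℝ) ^ 2 by positivity)
  have h7 : 48 * (K : ℝ) * W * p e / (q : ℝ) ^ 2 * (4 / 3) ≤ p e / 16 := by
    calc 48 * (K : ℝ) * W * p e / (q : ℝ) ^ 2 * (4 / 3) = (64 * K * W / (q : ℝ) ^ 2) * p e := by ring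
      _ ≤ (1 / 16) * p e := by
        apply mul_le_mul_of_nonneg_right _ hP
        rw [div_le_iff₀ (by positivity)]
        linarith
      _ = _ := by ring
  linarith

end Pool.Agent.H70.AE
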