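import Pool.Agent.H70.AE.Defs

/-!
# AE-B4: number of alternating paths of length `r` through a given edge

`z = (v, b, c)`: `v : Fin (r+1) → V`, the edge `v i, v (i+1)` (`i < r`) has old colour `b` (`i` even), `c` (`i` odd).

Proof. Inject the set into `Fin r × Bool × Fin K`: `z ↦ (i, orientation, the other colour)` where `i` is a (chosen) index with
`e = s(v i, v (i+1))`, the orientation says whether `(v i, v (i+1)) = (x, y)` or `(y, x)` for a fixed representation
`e = s(x,y)`, the other colour is `c` if `i` is even and `b` if `i` is odd. Injective: the colour at parity of `i` is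
`R x y` (as `R (v i) (v (i+1)) = R x y` up to symmetry), so `b, c` are determined; then `v` is determined: forwards from `i + 1`
and backwards from `i` by `Rp` (`R u v = some c`, `R u w = some c` imply `v = w`), using `Rs` for the backward steps.
(It is enough to show that for each `(i, orientation, d)` the set of such `z` is a subsingleton, and to bound the
cardinality of the union, `Finset.card_le_card_of_injOn` or `Finset.card_biUnion_le`.)
-/

set_option autoImplicit false

open Finset

namespace Pool.Agent.H70.AE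

theorem b4_det {V : Type} {K : ℕ} (R : V → V → Option (Fin K))
    (Rs : ∀ u v, R u v = R v u)
    (Rp : ∀ u v w c, R u v = some c → R u w = some c → v = w) (r : ℕ)
    (v v' : Fin (r + 1) → V) (col : Fin r → Fin K)
    (h : ∀ i : Fin r, R (v i.castSucc) (v i.succ) = some (col i))
    (h' : ∀ i : Fin r, R (v' i.castSucc) (v' i.succ) = some (col i))
    (i0 : Fin r) (e1 : v i0.castSucc = v' i0.castSucc) (e2 : v i0.succ = v' i0.succ) :
    v = v' := by
  have fwd : ∀ n : ℕ, ∀ hn : n < r + 1, (i0 : ℕ) + 1 ≤ n → v ⟨n, hn⟩ = v' ⟨n, hn⟩ := by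
    intro n
    induction n with
    | zero => intro _ hle; omega
    | succ n ih =>
      intro hn hle
      by_cases hc : n = (i0 : ℕ)
      · have e3 : (⟨n + 1, hn⟩ : Fin (r + 1)) = i0.succ := by
          apply Fin.ext
          simp [hc]
        rw [e3]
        exact e2
      · have hnr : n < r := by omega
        have ih' := ih (by omega) (by omega)
        have a1 := h ⟨n, hnr⟩
        have a2 := h' ⟨n, hnr⟩
        have e3 : (⟨n, hnr⟩ : Fin r).castSucc = (⟨n, by omega⟩ : Fin (r + 1)) := rfl
        have e4 : (⟨n, hnr⟩ : Fin r).succ = (⟨n + 1, hn⟩ : Fin (r + 1)) := rfl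
        rw [e3, e4] at a1 a2
        rw [← ih'] at a2
        exact Rp _ _ _ _ a1 a2
  have bwd : ∀ k : ℕ, ∀ n : ℕ, ∀ hn : n < r + 1, n + k = (i0 : ℕ) → v ⟨n, hn⟩ = v' ⟨n, hn⟩ := by
    intro k
    induction k with
    | zero =>
      intro n hn hle
      have e3 : (⟨n, hn⟩ : Fin (r + 1)) = i0.castSucc := by
        apply Fin.ext
        simp only [Fin.val_castSucc]
        omega
      rw [e3]
      exact e1
    | succ k ih =>
      intro n hn hle
      have hnr : n < r := by have := i0.2; omega
      have ih' := ih (n + 1) (by omega) (by omega)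
      have a1 := h ⟨n, hnr⟩
      have a2 := h' ⟨n, hnr⟩
      have e3 : (⟨n, hnr⟩ : Fin r).castSucc = (⟨n, by omega⟩ : Fin (r + 1)) := rfl
      have e4 : (⟨n, hnr⟩ : Fin r).succ = (⟨n + 1, by omega⟩ : Fin (r + 1)) := rfl
      rw [e3, e4] at a1 a2
      rw [← ih', Rs] at a2
      rw [Rs] at a1
      exact Rp _ _ _ _ a1 a2
  funext j
  rcases Nat.lt_or_ge (i0 : ℕ) (j : ℕ) with hj | hj
  · exact fwd j j.2 hj
  · exact bwd ((i0 : ℕ) - (j : ℕ)) j j.2 (by omega)

open Classical in
theorem b4 {V : Type} [Fintype V] {K : ℕ} (R : V → V → Option (Fin K))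
    (Rs : ∀ u v, R u v = R v u)
    (Rp : ∀ u v w c, R u v = some c → R u w = some c → v = w) (r : ℕ) (e : Sym2 V) :
    ((univ.filter (fun z : (Fin (r + 1) → V) × Fin K × Fin K =>
        (∀ i : Fin r, R (z.1 i.castSucc) (z.1 i.succ) =
          some (if (i : ℕ) % 2 = 0 then z.2.1 else z.2.2)) ∧
        ∃ i : Fin r, e = s(z.1 i.castSucc, z.1 i.succ))).card : ℝ) ≤ 2 * r * K := by
  induction e using Sym2.ind with
  | _ x y =>
  set A := univ.filter (fun z : (Fin (r + 1) → V) × Fin K × Fin K =>
        (∀ i : Fin r, R (z.1 i.castSucc) (z.1 i.succ) =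
          some (if (i : ℕ) % 2 = 0 then z.2.1 else z.2.2)) ∧
        ∃ i : Fin r, s(x, y) = s(z.1 i.castSucc, z.1 i.succ)) with hA
  have hex : ∀ z ∈ A, ∃ i : Fin r, s(x, y) = s(z.1 i.castSucc, z.1 i.succ) := by
    intro z hz
    rw [hA, Finset.mem_filter] at hz
    exact hz.2.2
  rcases A.eq_empty_or_nonempty with hemp | hne
  · rw [hemp, Finset.card_empty, Nat.cast_zero]
    positivity
  obtain ⟨z0, hz0⟩ := hne
  obtain ⟨i00, -⟩ := hex z0 hz0
  have : Nonempty (Fin r) := ⟨i00⟩
  choose! idx hidx using hex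
  have hcard : A.card ≤ (univ : Finset (Fin r × Bool × Fin K)).card := by
    refine Finset.card_le_card_of_injOn (fun z => (idx z, decide (z.1 (idx z).castSucc = x),
      if (idx z : ℕ) % 2 = 0 then z.2.2 else z.2.1)) (fun _ _ => Finset.mem_coe.2 (Finset.mem_univ _)) ?_
    intro z hz z' hz' heq
    have hz1 := hz
    have hz1' := hz'
    rw [hA, Finset.mem_coe, Finset.mem_filter] at hz1 hz1'
    have k1 := hidx z hz
    have k2 := hidx z' hz'
    simp only [Prod.mk.injEq] at heq
    obtain ⟨q1, q2, q3⟩ := heq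
    rw [← q1] at q2 q3 k2
    set i0 := idx z with hi0
    have hends : z.1 i0.castSucc = z'.1 i0.castSucc ∧ z.1 i0.succ = z'.1 i0.succ := by
      rw [Sym2.eq_iff] at k1 k2
      by_cases hc : z.1 i0.castSucc = x
      · have hc' : z'.1 i0.castSucc = x := by
          rw [decide_eq_true hc] at q2
          exact of_decide_eq_true q2.symm
        refine ⟨hc.trans hc'.symm, ?_⟩
        have m1 : z.1 i0.succ = y := by
          rcases k1 with ⟨a1, a2⟩ | ⟨a1, a2⟩
          · exact a2.symm
          · rw [← a1, a2, hc]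
        have m2 : z'.1 i0.succ = y := by
          rcases k2 with ⟨a1, a2⟩ | ⟨a1, a2⟩
          · exact a2.symm
          · rw [← a1, a2, hc']
        rw [m1, m2]
      · have hc' : ¬ z'.1 i0.castSucc = x := by
          rw [decide_eq_false hc] at q2
          exact of_decide_eq_false q2.symm
        rcases k1 with ⟨a1, a2⟩ | ⟨a1, a2⟩
        · exact absurd a1.symm hc
        rcases k2 with ⟨b1, b2⟩ | ⟨b1, b2⟩
        · exact absurd b1.symm hc'
        exact ⟨a2.symm.trans b2, a1.symm.trans b1⟩
    have hcol : z.2.1 = z'.2.1 ∧ z.2.2 = z'.2.2 := by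
      have a1 := hz1.2.1 i0
      have a2 := hz1'.2.1 i0
      rw [hends.1, hends.2, a2] at a1
      have a3 := Option.some.inj a1
      by_cases hpar : (i0 : ℕ) % 2 = 0
      · rw [if_pos hpar, if_pos hpar] at a3 q3
        exact ⟨a3.symm, q3⟩
      · rw [if_neg hpar, if_neg hpar] at a3 q3
        exact ⟨q3, a3.symm⟩
    have hv : z.1 = z'.1 := by
      refine b4_det R Rs Rp r z.1 z'.1
        (fun i => if (i : ℕ) % 2 = 0 then z.2.1 else z.2.2) hz1.2.1 ?_ i0 hends.1 hends.2
      intro i
      rw [hz1'.2.1 i, hcol.1, hcol.2]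
    exact Prod.ext hv (Prod.ext hcol.1 hcol.2)
  have hc2 : (univ : Finset (Fin r × Bool × Fin K)).card = r * (2 * K) := by
    rw [Finset.card_univ, Fintype.card_prod, Fintype.card_prod, Fintype.card_fin, Fintype.card_bool,
      Fintype.card_fin]
  rw [hc2] at hcard
  have : (A.card : ℝ) ≤ ((r * (2 * K) : ℕ) : ℝ) := by exact_mod_cast hcard
  refine this.trans (le_of_eq ?_)
  push_cast
  ring

end Pool.Agent.H70.AE
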