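import Pool.Agent.H70.AE.Defs

/-!
# AE-CW: weighted closed walks with a prescribed step

`M` has entries in `[0,1]` and row sums at most `W`. The total weight of the closed sequences
`v : Fin (m+2) → V` with `v j = x`, `v (j+1) = y`, where the step `j` is not counted, is at most `W ^ m`.

Proof. Rotation: the map `v ↦ fun i => v (i + (j + 1))` is a bijection of `Fin (m+2) → V`; it turns the sum into the sum
over `u` with `u (-1) = x` (`-1 = last`), `u 0 = y` of `∏ i ∈ univ.erase (-1), M (u i) (u (i+1))`
`= ∏ i : Fin (m+1), M (u i.castSucc) (u i.succ)`. So we have walks `y = u_0, u_1, ..., u_{m+1} = x` with `m + 1` steps; the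
last step has weight `≤ 1`, and the sum over `u_1, ..., u_m` of the product of the first `m` weights is `≤ W ^ m` by
induction on `m` (sum over `u_m` first; `Fin.snocEquiv`/`Fin.consEquiv`/`Fin.prod_univ_succ`). For an
implementation it may be convenient to prove first, by induction on `m`, for the function
`F m y = ∑ u : Fin (m+1) → V, if u 0 = y then ∏ i : Fin m, M (u i.castSucc) (u i.succ) else 0` that `F m y ≤ W ^ m`
(`W ≥ 0` follows from `hW` and `M0` if `V` is nonempty, which holds as `x : V`).
See `wk_rot` in `Pool/Agent/H95/AEC/Walk.lean` for the rotation.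
-/

set_option autoImplicit false

open Finset

namespace Pool.Agent.H70.AE

open Classical in
/-- Open walks from `y` to `x` with `m + 1` steps have total weight at most `W ^ m`. -/
theorem cw_open {V : Type} [Fintype V] (M : V → V → ℝ) (M0 : ∀ x y, 0 ≤ M x y)
    (M1 : ∀ x y, M x y ≤ 1) (W : ℝ) (hW : ∀ x, ∑ y, M x y ≤ W) (x : V) (m : ℕ) :
    ∀ y : V, ∑ u : Fin (m + 2) → V, (if u 0 = y ∧ u (Fin.last (m + 1)) = x then
      ∏ i : Fin (m + 1), M (u i.castSucc) (u i.succ) else 0) ≤ W ^ m := by
  have hW0 : 0 ≤ W := (Finset.sum_nonneg fun y _ => M0 x y).trans (hW x)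
  induction m with
  | zero =>
    intro y
    rw [pow_zero]
    have h : ∀ u : Fin 2 → V, (if u 0 = y ∧ u (Fin.last 1) = x then
        ∏ i : Fin 1, M (u i.castSucc) (u i.succ) else 0) ≤ if u = ![y, x] then 1 else 0 := by
      intro u
      by_cases hu : u 0 = y ∧ u (Fin.last 1) = x
      · have hu' : u = ![y, x] := by
          funext i
          fin_cases i
          · exact hu.1
          · exact hu.2
        rw [if_pos hu, if_pos hu']
        simp only [Finset.univ_unique, Finset.prod_singleton]
        exact M1 _ _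
      · rw [if_neg hu]
        split_ifs <;> norm_num
    refine (Finset.sum_le_sum fun u _ => h u).trans ?_
    rw [Finset.sum_ite_eq' Finset.univ (![y, x] : Fin 2 → V) (fun _ => (1 : ℝ))]
    simp
  | succ m ih =>
    intro y
    have h1 : ∑ u : Fin (m + 1 + 2) → V, (if u 0 = y ∧ u (Fin.last (m + 1 + 1)) = x then
        ∏ i : Fin (m + 1 + 1), M (u i.castSucc) (u i.succ) else 0)
        = ∑ p : V × (Fin (m + 2) → V), (if p.1 = y then (∑ z : V, if p.2 0 = z ∧
            p.2 (Fin.last (m + 1)) = x then M y z *
              ∏ i : Fin (m + 1), M (p.2 i.castSucc) (p.2 i.succ) else 0) else 0) := by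
      rw [← (Fin.consEquiv (fun _ : Fin (m + 3) => V)).sum_comp]
      refine Finset.sum_congr rfl fun p _ => ?_
      have e0 : (Fin.consEquiv (fun _ : Fin (m + 3) => V)) p 0 = p.1 := rfl
      have e1 : (Fin.consEquiv (fun _ : Fin (m + 3) => V)) p (Fin.last (m + 1 + 1))
          = p.2 (Fin.last (m + 1)) := rfl
      by_cases hy : p.1 = y
      · by_cases hx : p.2 (Fin.last (m + 1)) = x
        · rw [if_pos (⟨e0.trans hy, e1.trans hx⟩ : _ ∧ _), if_pos hy, Fin.prod_univ_succ]
          rw [Finset.sum_eq_single (p.2 0)]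
          · rw [if_pos ⟨rfl, hx⟩]
            congr 1
            change M p.1 (p.2 0) = M y (p.2 0)
            rw [hy]
          · intro z _ hz
            rw [if_neg]
            rintro ⟨h, -⟩
            exact hz h.symm
          · intro h
            exact absurd (Finset.mem_univ _) h
        · rw [if_neg (fun h => hx (e1.symm.trans h.2)), if_pos hy]
          symm
          refine Finset.sum_eq_zero fun z _ => ?_
          rw [if_neg (fun h => hx h.2)]
      · rw [if_neg (fun h => hy (e0.symm.trans h.1)), if_neg hy]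
    rw [h1, Fintype.sum_prod_type]
    have h2 : ∀ a : V, (∑ u : Fin (m + 2) → V, (if a = y then (∑ z : V, if u 0 = z ∧
            u (Fin.last (m + 1)) = x then M y z *
              ∏ i : Fin (m + 1), M (u i.castSucc) (u i.succ) else 0) else 0))
        = if a = y then ∑ z : V, M y z * ∑ u : Fin (m + 2) → V,
            (if u 0 = z ∧ u (Fin.last (m + 1)) = x then
              ∏ i : Fin (m + 1), M (u i.castSucc) (u i.succ) else 0) else 0 := by
      intro a
      by_cases ha : a = y
      · simp only [if_pos ha]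
        rw [Finset.sum_comm]
        refine Finset.sum_congr rfl fun z _ => ?_
        rw [Finset.mul_sum]
        refine Finset.sum_congr rfl fun u _ => ?_
        split_ifs <;> simp
      · simp only [if_neg ha]
        simp
    simp only [h2]
    rw [Finset.sum_ite_eq' Finset.univ y, if_pos (Finset.mem_univ _)]
    calc ∑ z : V, M y z * ∑ u : Fin (m + 2) → V,
            (if u 0 = z ∧ u (Fin.last (m + 1)) = x then
              ∏ i : Fin (m + 1), M (u i.castSucc) (u i.succ) else 0)
        ≤ ∑ z : V, M y z * W ^ m :=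
          Finset.sum_le_sum fun z _ => mul_le_mul_of_nonneg_left (ih z) (M0 y z)
      _ = (∑ z : V, M y z) * W ^ m := by rw [Finset.sum_mul]
      _ ≤ W * W ^ m := mul_le_mul_of_nonneg_right (hW y) (pow_nonneg hW0 m)
      _ = W ^ (m + 1) := by rw [pow_succ]; ring

open Classical in
theorem cw {V : Type} [Fintype V] (M : V → V → ℝ) (M0 : ∀ x y, 0 ≤ M x y)
    (M1 : ∀ x y, M x y ≤ 1) (W : ℝ) (hW : ∀ x, ∑ y, M x y ≤ W) (m : ℕ) (j : Fin (m + 2))
    (x y : V) :
    ∑ v ∈ univ.filter (fun v : Fin (m + 2) → V => v j = x ∧ v (j + 1) = y),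
      ∏ i ∈ univ.erase j, M (v i) (v (i + 1)) ≤ W ^ m := by
  rw [Finset.sum_filter]
  have hlast : (Fin.last (m + 1) : Fin (m + 2)) + 1 = 0 := by simp
  let ρ : Fin (m + 2) ≃ Fin (m + 2) := Equiv.addRight (j + 1)
  have hρl : ρ (Fin.last (m + 1)) = j := by
    change Fin.last (m + 1) + (j + 1) = j
    rw [add_comm j 1, ← add_assoc, hlast, zero_add]
  have hρ0 : ρ 0 = j + 1 := by
    change 0 + (j + 1) = j + 1
    rw [zero_add]
  let E : (Fin (m + 2) → V) ≃ (Fin (m + 2) → V) := Equiv.arrowCongr ρ (Equiv.refl V)
  have hE : ∀ (u : Fin (m + 2) → V) (i : Fin (m + 2)), E u (ρ i) = u i := by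
    intro u i
    change u (ρ.symm (ρ i)) = u i
    rw [Equiv.symm_apply_apply]
  rw [← E.sum_comp]
  refine le_trans (le_of_eq ?_) (cw_open M M0 M1 W hW x m y)
  refine Finset.sum_congr rfl fun u _ => ?_
  have a1 : E u j = u (Fin.last (m + 1)) := by rw [← hE u (Fin.last (m + 1)), hρl]
  have a2 : E u (j + 1) = u 0 := by rw [← hE u 0, hρ0]
  rw [a1, a2]
  by_cases h : u (Fin.last (m + 1)) = x ∧ u 0 = y
  · rw [if_pos h, if_pos ⟨h.2, h.1⟩]
    have hset : (univ.erase j : Finset (Fin (m + 2)))
        = (univ.map ⟨fun i : Fin (m + 1) => ρ i.castSucc,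
            fun a b hab => Fin.castSucc_injective _ (ρ.injective hab)⟩) := by
      ext i
      simp only [Finset.mem_erase, Finset.mem_univ, and_true, Finset.mem_map, true_and,
        Function.Embedding.coeFn_mk]
      constructor
      · intro hi
        obtain ⟨k, hk⟩ := ρ.surjective i
        have hkl : k ≠ Fin.last (m + 1) := by
          rintro rfl
          exact hi (hk.symm.trans hρl)
        obtain ⟨a, ha⟩ := Fin.exists_castSucc_eq.2 hkl
        exact ⟨a, by rw [ha, hk]⟩
      · rintro ⟨a, rfl⟩ hj
        have : a.castSucc = Fin.last (m + 1) := ρ.injective (hj.trans hρl.symm)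
        exact absurd this (Fin.castSucc_lt_last a).ne
    rw [hset, Finset.prod_map]
    refine Finset.prod_congr rfl fun a _ => ?_
    simp only [Function.Embedding.coeFn_mk]
    have b1 : E u (ρ a.castSucc) = u a.castSucc := hE u _
    have b2 : ρ a.castSucc + 1 = ρ a.succ := by
      change a.castSucc + (j + 1) + 1 = a.succ + (j + 1)
      rw [← Fin.coeSucc_eq_succ]
      exact add_right_comm _ _ _
    rw [b1, b2, hE]
  · rw [if_neg h, if_neg (fun hh => h ⟨hh.2, hh.1⟩)]

end Pool.Agent.H70.AE
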