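import Mathlib

/-!
# H70/AE: last stage of the asymptotic acyclic edge colouring theorem (MP_5cda12_co, proofs 260, section 5)

Input: a partial proper colouring `R` (old colours) without short bicoloured cycles, with few uncoloured
edges at every vertex. Every coloured edge becomes *special* with probability `δ3`, every uncoloured edge
is special, and the special edges get uniform random new colours. One application of the local lemma.
Variables: `Sym2 V`, values: `Option (Fin q)` (`none` = not special).
-/

set_option autoImplicit false

open Finset

namespace Pool.Agent.H70.AE

/-- weight of an assignment in a finite product space -/
noncomputable def wt {E A : Type} [Fintype E] (μ : E → A → ℝ) (f : E → A) : ℝ := ∏ e, μ e (f e)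

open Classical in
/-- probability of an event in a finite product space -/
noncomputable def Pr {E A : Type} [Fintype E] [Fintype A] (μ : E → A → ℝ)
    (Q : (E → A) → Prop) : ℝ :=
  ∑ f : E → A, if Q f then wt μ f else 0

end Pool.Agent.H70.AE
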