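import Pool.Agent.H70.AE.Defs
import Pool.Agent.H95.AEC.CycExt

/-!
# AE-DET: an assignment avoiding all bad events gives an acyclic colouring

Proof. Colour set `Fin K ⊕ Fin q`, transported to `Fin (K + q)` by `finSumFinEquiv` (an injective relabelling of the colours
changes neither properness nor the number of colours on a cycle; compare the end of
`Pool/Agent/H95/AEC/Final.lean`, lemma `toFinset_card_map_inj`). Define
`c u v = match f s(u,v) with | some α => inr α | none => match R u v with | some a => inl a | none => inr ⟨0, q0⟩`. For an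
edge `u v`: `c u v = inr α` iff `f s(u,v) = some α`, and `c u v = inl a` iff `f s(u,v) = none` and `R u v = some a` (`F1`).
Symmetric: `Rs`, `Sym2.eq_swap`. Proper: two new colours `E1`, two old colours `Rp`, mixed: different.
Cycles: if some cycle `p` has fewer than 3 colours, `Pool.Agent.H95.AEC.cyc_extract` (with `bad` arbitrary) gives
`x : Fin (2n+4) → V` injective, adjacent cyclically, with colours alternating `α` (even `i`), `β` (odd `i`), `α ≠ β`.
* both new: `E2`.
* both old (`inl b`, `inl c`): all `f s(x i, x (i+1)) = none` and `R (x i) (x (i+1)) = some (if even then b else c)`. `Rc` gives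
  `r + 1 < 2n+4`; apply `E4` to `fun i : Fin (r+1) => x ⟨i, _⟩`.
* `α = inr α'` new, `β = inl a` old: `E3` with `x' i = x (2i)`, `y' i = x (2i+1)` (`i : Fin (n+2)`), where `2i`, `2i+1` are the
  elements `⟨2 * i, _⟩`, `⟨2 * i + 1, _⟩` of `Fin (2n+4)`; the successor of `2i+1` is `2(i+1)` (cyclically).
* `α` old, `β` new: the same with `x' i = x (2i+1)`, `y' i = x (2i+2)` (cyclically), i.e. apply the previous case to
  the rotated sequence `fun j => x (j+1)`.
-/

set_option autoImplicit false

open Finset

namespace Pool.Agent.H70.AE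

theorem det_card_map {A B D : Type} [DecidableEq A] [DecidableEq B] (f : A → B)
    (hf : Function.Injective f) (g : D → A) (l : List D) :
    (l.map (fun d => f (g d))).toFinset.card = (l.map g).toFinset.card := by
  have : (l.map (fun d => f (g d))).toFinset = (l.map g).toFinset.image f := by
    ext b
    simp
  rw [this, card_image_of_injective _ hf]

theorem det_val_succ {n : ℕ} (i : Fin (2 * n + 4)) (h : (i : ℕ) + 1 < 2 * n + 4) :
    ((i + 1 : Fin (2 * n + 4)) : ℕ) = (i : ℕ) + 1 := Fin.val_add_one_of_lt' h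

theorem det_val_last {n : ℕ} (i : Fin (2 * n + 4)) (h : ¬ (i : ℕ) + 1 < 2 * n + 4) :
    ((i + 1 : Fin (2 * n + 4)) : ℕ) = 0 := by
  have h1 : (i : ℕ) + 1 = 2 * n + 4 := by omega
  rw [Fin.val_add, Fin.val_one, h1, Nat.mod_self]

theorem det_par {n : ℕ} (i : Fin (2 * n + 4)) :
    ((i + 1 : Fin (2 * n + 4)) : ℕ) % 2 = ((i : ℕ) + 1) % 2 := by
  by_cases hi : (i : ℕ) + 1 < 2 * n + 4
  · rw [det_val_succ i hi]
  · have h1 : (i : ℕ) + 1 = 2 * n + 4 := by omega
    rw [det_val_last i hi, h1]
    omega

theorem det_small_succ {n : ℕ} (i : Fin (n + 2)) (h : (i : ℕ) + 1 < n + 2) :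
    ((i + 1 : Fin (n + 2)) : ℕ) = (i : ℕ) + 1 := Fin.val_add_one_of_lt' h

theorem det_small_last {n : ℕ} (i : Fin (n + 2)) (h : ¬ (i : ℕ) + 1 < n + 2) :
    ((i + 1 : Fin (n + 2)) : ℕ) = 0 := by
  have h1 : (i : ℕ) + 1 = n + 2 := by omega
  rw [Fin.val_add, Fin.val_one, h1, Nat.mod_self]

/-- the mixed case: new edges at even positions, old edges at odd positions -/
theorem det_mixed {V : Type} {K q : ℕ} (R : V → V → Option (Fin K))
    (f : Sym2 V → Option (Fin q))
    (E3 : ∀ (n : ℕ) (x y : Fin (n + 2) → V) (a : Fin K) (α : Fin q), Function.Injective x →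
      Function.Injective y → (∀ i j, x i ≠ y j) → (∀ i, R (y i) (x (i + 1)) = some a) →
      ¬ ∀ i, f s(x i, y i) = some α)
    (n : ℕ) (x : Fin (2 * n + 4) → V) (hinj : Function.Injective x) (a : Fin K) (α : Fin q)
    (he : ∀ i : Fin (2 * n + 4), (i : ℕ) % 2 = 0 → f s(x i, x (i + 1)) = some α)
    (ho : ∀ i : Fin (2 * n + 4), (i : ℕ) % 2 = 1 → R (x i) (x (i + 1)) = some a) : False := by
  have hb0 : ∀ i : Fin (n + 2), 2 * (i : ℕ) < 2 * n + 4 := fun i => by have := i.2; omega
  have hb1 : ∀ i : Fin (n + 2), 2 * (i : ℕ) + 1 < 2 * n + 4 := fun i => by have := i.2; omega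
  refine E3 n (fun i => x ⟨2 * (i : ℕ), hb0 i⟩) (fun i => x ⟨2 * (i : ℕ) + 1, hb1 i⟩) a α
    ?_ ?_ ?_ ?_ ?_
  · intro i j hij
    have h := congrArg Fin.val (hinj hij)
    simp only at h
    exact Fin.ext (by omega)
  · intro i j hij
    have h := congrArg Fin.val (hinj hij)
    simp only at h
    exact Fin.ext (by omega)
  · intro i j hij
    have h := congrArg Fin.val (hinj hij)
    simp only at h
    omega
  · intro i
    have h := ho ⟨2 * (i : ℕ) + 1, hb1 i⟩ (by simp only; omega)
    have h2 : (⟨2 * (i : ℕ) + 1, hb1 i⟩ : Fin (2 * n + 4)) + 1 =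
        ⟨2 * ((i + 1 : Fin (n + 2)) : ℕ), hb0 (i + 1)⟩ := by
      apply Fin.ext
      by_cases hi : (i : ℕ) + 1 < n + 2
      · rw [det_val_succ _ (by simp only; omega)]
        simp only
        rw [det_small_succ i hi]
        ring
      · rw [det_val_last _ (by simp only; omega)]
        simp only
        rw [det_small_last i hi]
    rw [h2] at h
    exact h
  · intro i
    have h := he ⟨2 * (i : ℕ), hb0 i⟩ (by simp only; omega)
    have h2 : (⟨2 * (i : ℕ), hb0 i⟩ : Fin (2 * n + 4)) + 1 = ⟨2 * (i : ℕ) + 1, hb1 i⟩ := by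
      apply Fin.ext
      rw [det_val_succ _ (by simp only; exact hb1 i)]
    rw [h2] at h
    exact h

open Classical in
theorem det {V : Type} [Fintype V] (G : SimpleGraph V) {K q r : ℕ} (q0 : 0 < q)
    (R : V → V → Option (Fin K)) (Rs : ∀ u v, R u v = R v u)
    (Rp : ∀ u v w c, R u v = some c → R u w = some c → v = w)
    (Rc : ∀ (n : ℕ) (x : Fin (2 * n + 4) → V) (b c : Fin K), Function.Injective x → b ≠ c →
      (∀ i, R (x i) (x (i + 1)) = some (if (i : ℕ) % 2 = 0 then b else c)) → r + 1 < 2 * n + 4)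
    (f : Sym2 V → Option (Fin q))
    (F1 : ∀ u v, G.Adj u v → R u v = none → f s(u, v) ≠ none)
    (E1 : ∀ v u w α, u ≠ w → ¬ (f s(v, u) = some α ∧ f s(v, w) = some α))
    (E2 : ∀ (n : ℕ) (x : Fin (2 * n + 4) → V) (α β : Fin q), Function.Injective x → α ≠ β →
      ¬ ∀ i, f s(x i, x (i + 1)) = some (if (i : ℕ) % 2 = 0 then α else β))
    (E3 : ∀ (n : ℕ) (x y : Fin (n + 2) → V) (a : Fin K) (α : Fin q), Function.Injective x →
      Function.Injective y → (∀ i j, x i ≠ y j) → (∀ i, R (y i) (x (i + 1)) = some a) →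
      ¬ ∀ i, f s(x i, y i) = some α)
    (E4 : ∀ (x : Fin (r + 1) → V) (b c : Fin K), Function.Injective x → b ≠ c →
      (∀ i : Fin r, R (x i.castSucc) (x i.succ) = some (if (i : ℕ) % 2 = 0 then b else c)) →
      ¬ ∀ i : Fin r, f s(x i.castSucc, x i.succ) = none) :
    ∃ c : V → V → Fin (K + q),
      (∀ u v : V, c u v = c v u) ∧
      (∀ u v w : V, G.Adj u v → G.Adj u w → v ≠ w → c u v ≠ c u w) ∧
      (∀ (u : V) (p : G.Walk u u), p.IsCycle →
          3 ≤ (p.darts.map (fun d => c d.toProd.1 d.toProd.2)).toFinset.card) := by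
  let c : V → V → Fin K ⊕ Fin q := fun u v =>
    match f s(u, v) with
    | some α => Sum.inr α
    | none => match R u v with
      | some a => Sum.inl a
      | none => Sum.inr ⟨0, q0⟩
  have hcs : ∀ u v α, f s(u, v) = some α → c u v = Sum.inr α := by
    intro u v α h
    simp only [c, h]
  have hcn : ∀ u v a, f s(u, v) = none → R u v = some a → c u v = Sum.inl a := by
    intro u v a h h'
    simp only [c, h, h']
  have hcase : ∀ u v, G.Adj u v → (∃ α, f s(u, v) = some α ∧ c u v = Sum.inr α) ∨
      (∃ a, f s(u, v) = none ∧ R u v = some a ∧ c u v = Sum.inl a) := by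
    intro u v huv
    rcases hf : f s(u, v) with _ | α
    · rcases hR : R u v with _ | a
      · exact absurd hf (F1 u v huv hR)
      · exact Or.inr ⟨a, rfl, rfl, hcn u v a hf hR⟩
    · exact Or.inl ⟨α, rfl, hcs u v α hf⟩
  have hnew : ∀ u v α, G.Adj u v → c u v = Sum.inr α → f s(u, v) = some α := by
    intro u v α huv h
    rcases hcase u v huv with ⟨α', h1, h2⟩ | ⟨a, _, _, h2⟩
    · rw [h2] at h
      rw [h1, Sum.inr.inj h]
    · rw [h2] at h
      cases h
  have hold : ∀ u v a, G.Adj u v → c u v = Sum.inl a → f s(u, v) = none ∧ R u v = some a := by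
    intro u v a huv h
    rcases hcase u v huv with ⟨α', h1, h2⟩ | ⟨a', h0, h1, h2⟩
    · rw [h2] at h
      cases h
    · rw [h2] at h
      exact ⟨h0, by rw [h1, Sum.inl.inj h]⟩
  have hsymm : ∀ u v, c u v = c v u := by
    intro u v
    have h1 : s(u, v) = s(v, u) := Sym2.eq_swap
    simp only [c, h1, Rs u v]
  have hprop : ∀ u v w, G.Adj u v → G.Adj u w → v ≠ w → c u v ≠ c u w := by
    intro u v w huv huw hne heq
    rcases hcase u v huv with ⟨α, h1, h2⟩ | ⟨a, h0, h1, h2⟩
    · have h3 := hnew u w α huw (heq ▸ h2)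
      exact E1 u v w α hne ⟨h1, h3⟩
    · have h3 := hold u w a huw (heq ▸ h2)
      exact hne (Rp u v w a h1 h3.2)
  refine ⟨fun u v => finSumFinEquiv (c u v), fun u v => by simp only [hsymm u v],
    fun u v w huv huw hne he => hprop u v w huv huw hne (finSumFinEquiv.injective he), ?_⟩
  intro u p hp
  rw [det_card_map finSumFinEquiv finSumFinEquiv.injective
    (fun d : G.Dart => c d.toProd.1 d.toProd.2) p.darts]
  by_contra hlt
  push Not at hlt
  obtain ⟨n, x, α, β, hinj, hadj, hab, _, hcol⟩ := Pool.Agent.H95.AEC.cyc_extract G c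
    (fun u v _ => hsymm u v) hprop u p hp hlt (Sum.inr ⟨0, q0⟩)
  rcases α with b | α
  · rcases β with b' | β
    · -- both old
      have hbb : b ≠ b' := fun h => hab (by rw [h])
      have hR : ∀ i, R (x i) (x (i + 1)) = some (if (i : ℕ) % 2 = 0 then b else b') := by
        intro i
        have h := hcol i
        by_cases hi : (i : ℕ) % 2 = 0
        · rw [if_pos hi] at h ⊢
          exact (hold _ _ _ (hadj i) h).2
        · rw [if_neg hi] at h ⊢
          exact (hold _ _ _ (hadj i) h).2
      have hN : ∀ i, f s(x i, x (i + 1)) = none := by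
        intro i
        have h := hcol i
        by_cases hi : (i : ℕ) % 2 = 0
        · rw [if_pos hi] at h
          exact (hold _ _ _ (hadj i) h).1
        · rw [if_neg hi] at h
          exact (hold _ _ _ (hadj i) h).1
      have hr := Rc n x b b' hinj hbb hR
      have hlt' : ∀ i : Fin (r + 1), (i : ℕ) < 2 * n + 4 := fun i => by have := i.2; omega
      have hs : ∀ i : Fin r, (⟨(i.castSucc : ℕ), hlt' i.castSucc⟩ : Fin (2 * n + 4)) + 1 =
          ⟨(i.succ : ℕ), hlt' i.succ⟩ := by
        intro i
        apply Fin.ext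
        rw [det_val_succ _ (by simp only [Fin.val_castSucc]; have := i.2; omega)]
        simp
      refine E4 (fun i => x ⟨(i : ℕ), hlt' i⟩) b b' ?_ hbb ?_ ?_
      · intro i j hij
        have h := congrArg Fin.val (hinj hij)
        exact Fin.ext h
      · intro i
        have h := hR ⟨(i.castSucc : ℕ), hlt' i.castSucc⟩
        rw [hs i] at h
        exact h
      · intro i
        have h := hN ⟨(i.castSucc : ℕ), hlt' i.castSucc⟩
        rw [hs i] at h
        exact h
    · -- first colour old, second new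
      refine det_mixed R f E3 n (fun i => x (i + 1)) ?_ b β ?_ ?_
      · intro i j hij
        exact add_right_cancel (hinj hij)
      · intro i hi
        have h := hcol (i + 1)
        rw [det_par i, if_neg (by omega)] at h
        exact hnew _ _ _ (hadj (i + 1)) h
      · intro i hi
        have h := hcol (i + 1)
        rw [det_par i, if_pos (by omega)] at h
        exact (hold _ _ _ (hadj (i + 1)) h).2
  · rcases β with b' | β
    · refine det_mixed R f E3 n x hinj b' α ?_ ?_
      · intro i hi
        have h := hcol i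
        rw [if_pos hi] at h
        exact hnew _ _ _ (hadj i) h
      · intro i hi
        have h := hcol i
        rw [if_neg (by omega)] at h
        exact (hold _ _ _ (hadj i) h).2
    · refine E2 n x α β hinj (fun h => hab (by rw [h])) ?_
      intro i
      have h := hcol i
      by_cases hi : (i : ℕ) % 2 = 0
      · rw [if_pos hi] at h ⊢
        exact hnew _ _ _ (hadj i) h
      · rw [if_neg hi] at h ⊢
        exact hnew _ _ _ (hadj i) h

end Pool.Agent.H70.AE
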