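import Pool.Agent.H70.AE.Finish

/-!
# AE-EPS: the completion theorem in epsilon form

Proof: choose `δ3 = δ = min (1/2) (ε ^ 2 / 2 ^ 14)` (any small enough multiple of `ε ^ 2`; `ε ≤ 1` may be assumed) and
`δ1 = δ2 = δ`; `K ≤ 2 D`, `q ≥ ε D` give `n1`, `n2`, `n3` of `finish`. `n4`: `2 r K (1 - δ/2) ^ r ≤ 4 r D exp (- δ r / 2)`, and
`r ≥ D ^ η`, `r ≥ 1`: `r ≤ ... `; as `r exp (-δ r / 4) ≤ 4 / δ` it is at most `(16 / δ) D exp (- δ D ^ η / 4)`, which tends to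
`0` as `D → ∞` (`η` fixed), so it is `≤ δ / 4` for `D ≥ D0(δ, η)`.
-/

set_option autoImplicit false

open Finset

namespace Pool.Agent.H70.AE

open Classical in
/-- Completion of a partial colouring, epsilon form. -/
theorem finish_eps (ε : ℝ) (hε : 0 < ε) :
    ∃ δ : ℝ, 0 < δ ∧ ∀ η : ℝ, 0 < η → ∃ D0 : ℕ, ∀ (V : Type) (_ : Fintype V)
      (G : SimpleGraph V) (D K q r : ℕ), D0 ≤ D → K ≤ 2 * D → ε * D ≤ q →
      ((D : ℝ) ^ η ≤ r) →
      (∀ v, (univ.filter (fun u => G.Adj v u)).card ≤ D) →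
      ∀ (R : V → V → Option (Fin K)), (∀ u v, R u v = R v u) →
      (∀ u v, R u v ≠ none → G.Adj u v) →
      (∀ u v w c, R u v = some c → R u w = some c → v = w) →
      (∀ (n : ℕ) (x : Fin (2 * n + 4) → V) (b c : Fin K), Function.Injective x → b ≠ c →
        (∀ i, R (x i) (x (i + 1)) = some (if (i : ℕ) % 2 = 0 then b else c)) →
        r + 1 < 2 * n + 4) →
      (∀ v, ((univ.filter (fun u => G.Adj v u ∧ R v u = none)).card : ℝ) ≤ δ * D) →
      (∀ u v, G.Adj u v → ((univ.filter (fun c : Fin K => ∃ u' v', R u u' = some c ∧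
        R v v' = some c ∧ G.Adj u' v' ∧ R u' v' = none)).card : ℝ) ≤ δ * D) →
      ∃ c : V → V → Fin (K + q),
        (∀ u v : V, c u v = c v u) ∧
        (∀ u v w : V, G.Adj u v → G.Adj u w → v ≠ w → c u v ≠ c u w) ∧
        (∀ (u : V) (p : G.Walk u u), p.IsCycle →
            3 ≤ (p.darts.map (fun d => c d.toProd.1 d.toProd.2)).toFinset.card) := by
  obtain ⟨ε', hε'⟩ : ∃ ε' : ℝ, ε' = min ε 1 := ⟨_, rfl⟩
  have he0 : 0 < ε' := by
    rw [hε']
    exact lt_min hε one_pos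
  have he1 : ε' ≤ 1 := by
    rw [hε']
    exact min_le_right _ _
  have heε : ε' ≤ ε := by
    rw [hε']
    exact min_le_left _ _
  obtain ⟨δ, hδ⟩ : ∃ δ : ℝ, δ = ε' ^ 2 / 2 ^ 14 := ⟨_, rfl⟩
  have hδ0 : 0 < δ := by
    rw [hδ]
    positivity
  have hsq : ε' ^ 2 ≤ ε' := by nlinarith
  have hδ1 : δ < 1 := by
    rw [hδ]
    linarith
  refine ⟨δ, hδ0, fun η hη => ?_⟩
  have hlim := tendsto_rpow_mul_exp_neg_mul_atTop_nhds_zero (1 + 1 / η) (δ / 2) (by positivity)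
  obtain ⟨X0, hX0⟩ := Filter.eventually_atTop.1
    (hlim.eventually (gt_mem_nhds (show (0 : ℝ) < δ / 16 by positivity)))
  have hlim2 : Filter.Tendsto (fun D : ℕ => (D : ℝ) ^ η) Filter.atTop Filter.atTop :=
    (tendsto_rpow_atTop hη).comp tendsto_natCast_atTop_atTop
  obtain ⟨D1, hD1⟩ := Filter.eventually_atTop.1
    (hlim2.eventually (Filter.eventually_ge_atTop (max X0 1)))
  refine ⟨max D1 1, ?_⟩
  intro V _ G D K q r hD hK hq hr hdeg R Rs Radj Rp Rc h1 h2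
  have hD1' : 1 ≤ D := le_trans (le_max_right _ _) hD
  have hDR : (1 : ℝ) ≤ D := by exact_mod_cast hD1'
  have hKR : (K : ℝ) ≤ 2 * D := by exact_mod_cast hK
  have hK0 : (0 : ℝ) ≤ K := Nat.cast_nonneg K
  have hDη : max X0 1 ≤ (D : ℝ) ^ η := hD1 D (le_trans (le_max_left _ _) hD)
  have hrX : X0 ≤ (r : ℝ) := (le_max_left _ _).trans (hDη.trans hr)
  have hr1 : (1 : ℝ) ≤ (r : ℝ) := (le_max_right _ _).trans (hDη.trans hr)
  have hq' : ε' * D ≤ q := (mul_le_mul_of_nonneg_right heε (by linarith)).trans hq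
  have hqpos : (0 : ℝ) < q := lt_of_lt_of_le (by positivity) hq'
  have hq0 : 0 < q := by exact_mod_cast hqpos
  have hr0 : 0 < r := by
    have : (0 : ℝ) < r := by linarith
    exact_mod_cast this
  have hδD : 0 ≤ δ * D := by positivity
  have hδD2 : δ * D = ε' ^ 2 * D / 2 ^ 14 := by
    rw [hδ]
    ring
  have hεD : ε' ^ 2 * D ≤ ε' * D := mul_le_mul_of_nonneg_right hsq (by linarith)
  have hεD0 : 0 ≤ ε' * D := by positivity
  refine finish G D K q r δ δ δ hdeg R Rs Radj Rp Rc h1 h2 hδ0 hδ1 hq0 hr0 ?_ ?_ ?_ ?_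
  · have e : 256 * ((δ + δ) * (D : ℝ)) = 512 * (δ * D) := by ring
    rw [e, hδD2]
    linarith
  · have e : δ * (K : ℝ) ≤ δ * (2 * D) := mul_le_mul_of_nonneg_left hKR hδ0.le
    have e2 : 256 * (δ * (D : ℝ) + δ * K) ≤ 768 * (δ * D) := by linarith
    refine e2.trans ?_
    rw [hδD2]
    linarith
  · have e : 1024 * (K : ℝ) * ((δ + δ) * D) ≤ 1024 * (2 * D) * ((δ + δ) * D) := by
      apply mul_le_mul_of_nonneg_right _ (by positivity)
      linarith
    refine e.trans ?_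
    have e2 : 1024 * (2 * (D : ℝ)) * ((δ + δ) * D) = (ε' * D) ^ 2 / 4 := by
      rw [hδ]
      ring
    rw [e2]
    have e3 : (ε' * D) ^ 2 ≤ (q : ℝ) ^ 2 := pow_le_pow_left₀ hεD0 hq' 2
    have e4 : 0 ≤ (ε' * D) ^ 2 := sq_nonneg _
    linarith
  · have hx := hX0 (r : ℝ) hrX
    have hDr : (D : ℝ) ≤ (r : ℝ) ^ (1 / η) := by
      have h3 : ((D : ℝ) ^ η) ^ (1 / η) ≤ (r : ℝ) ^ (1 / η) :=
        Real.rpow_le_rpow (by positivity) hr (by positivity)
      rwa [← Real.rpow_mul (by linarith), mul_one_div_cancel hη.ne', Real.rpow_one] at h3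
    have hexp : (1 - δ / 2) ^ r ≤ Real.exp (-(δ / 2) * r) := by
      have h3 : (1 - δ / 2) ^ r ≤ (Real.exp (-(δ / 2))) ^ r :=
        pow_le_pow_left₀ (by linarith) (Real.one_sub_le_exp_neg _) r
      refine h3.trans (le_of_eq ?_)
      rw [← Real.exp_nat_mul]
      congr 1
      ring
    have hpow0 : 0 ≤ (1 - δ / 2) ^ r := pow_nonneg (by linarith) r
    have hrp : (r : ℝ) ^ (1 + 1 / η) = r * (r : ℝ) ^ (1 / η) := by
      rw [Real.rpow_add (by linarith), Real.rpow_one]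
    rw [hrp] at hx
    have hexp0 : 0 < Real.exp (-(δ / 2) * r) := Real.exp_pos _
    calc 2 * (r : ℝ) * K * (1 - δ / 2) ^ r
        ≤ 2 * (r : ℝ) * (2 * (r : ℝ) ^ (1 / η)) * Real.exp (-(δ / 2) * r) := by
          apply mul_le_mul _ hexp hpow0 (by positivity)
          apply mul_le_mul_of_nonneg_left _ (by positivity)
          linarith
      _ = 4 * (r * (r : ℝ) ^ (1 / η) * Real.exp (-(δ / 2) * r)) := by ring
      _ ≤ 4 * (δ / 16) := by linarith
      _ = δ / 4 := by ring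

end Pool.Agent.H70.AE
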