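import Pool.Agent.H70.AE.Defs

/-!
# AE-INJ: the edges of injective closed sequences, paths and matchings are distinct

`edges_inj`: if `s(x i, x (i+1)) = s(x j, x (j+1))` then `i = j` or (`i = j + 1` and `i + 1 = j`), the latter gives `2 = 0` in
`Fin (2n+4)`, impossible. `path_inj`: the same with `castSucc`/`succ` (compare the values in `ℕ`). `pair_inj`: `Sym2.eq_iff`.
-/

set_option autoImplicit false

open Finset

namespace Pool.Agent.H70.AE

theorem edges_inj {V : Type} (n : ℕ) (x : Fin (2 * n + 4) → V) (hx : Function.Injective x) :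
    Function.Injective (fun i => s(x i, x (i + 1))) := by
  intro i j hij
  simp only [Sym2.eq_iff] at hij
  rcases hij with ⟨h1, -⟩ | ⟨h1, h2⟩
  · exact hx h1
  · have h3 := hx h1
    have h4 := hx h2
    have h5 : ((i + 1 : Fin (2 * n + 4)) : ℕ) = (i : ℕ) + 1 ∨
        ((i : ℕ) + 1 = 2 * n + 4 ∧ ((i + 1 : Fin (2 * n + 4)) : ℕ) = 0) := by
      by_cases hi : (i : ℕ) + 1 < 2 * n + 4
      · left; rw [Fin.val_add_one_of_lt' hi]
      · right
        have h6 : (i : ℕ) + 1 = 2 * n + 4 := by omega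
        refine ⟨h6, ?_⟩
        rw [Fin.val_add, Fin.val_one, h6, Nat.mod_self]
    have h6 : ((j + 1 : Fin (2 * n + 4)) : ℕ) = (j : ℕ) + 1 ∨
        ((j : ℕ) + 1 = 2 * n + 4 ∧ ((j + 1 : Fin (2 * n + 4)) : ℕ) = 0) := by
      by_cases hi : (j : ℕ) + 1 < 2 * n + 4
      · left; rw [Fin.val_add_one_of_lt' hi]
      · right
        have h6 : (j : ℕ) + 1 = 2 * n + 4 := by omega
        refine ⟨h6, ?_⟩
        rw [Fin.val_add, Fin.val_one, h6, Nat.mod_self]
    have h7 : (i : ℕ) = ((j + 1 : Fin (2 * n + 4)) : ℕ) := congrArg Fin.val h3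
    have h8 : ((i + 1 : Fin (2 * n + 4)) : ℕ) = (j : ℕ) := congrArg Fin.val h4
    omega

theorem path_inj {V : Type} (r : ℕ) (x : Fin (r + 1) → V) (hx : Function.Injective x) :
    Function.Injective (fun i : Fin r => s(x i.castSucc, x i.succ)) := by
  intro i j hij
  simp only [Sym2.eq_iff] at hij
  rcases hij with ⟨h1, -⟩ | ⟨h1, h2⟩
  · exact Fin.castSucc_injective _ (hx h1)
  · have h3 := congrArg Fin.val (hx h1)
    have h4 := congrArg Fin.val (hx h2)
    simp only [Fin.val_castSucc, Fin.val_succ] at h3 h4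
    omega

theorem pair_inj {V : Type} {ι : Type} (x y : ι → V) (hx : Function.Injective x)
    (hxy : ∀ i j, x i ≠ y j) : Function.Injective (fun i => s(x i, y i)) := by
  intro i j hij
  simp only [Sym2.eq_iff] at hij
  rcases hij with ⟨h1, -⟩ | ⟨h1, -⟩
  · exact hx h1
  · exact absurd h1 (hxy i j)

end Pool.Agent.H70.AE
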