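import Pool.Agent.H70.AE.LLLC
import Pool.Agent.H70.AE.B1
import Pool.Agent.H70.AE.B2Tot
import Pool.Agent.H70.AE.B3Tot
import Pool.Agent.H70.AE.B4
import Pool.Agent.H70.AE.Inj
import Pool.Agent.H70.AE.Det

/-!
# AE-FINISH: the completion theorem (assembly, helper70)
-/

set_option autoImplicit false

open Finset

namespace Pool.Agent.H70.AE

section aux

variable {V : Type} {K q : ℕ}

theorem ite_inst (P : Prop) (d1 d2 : Decidable P) (a b : ℝ) :
    @ite ℝ P d1 a b = @ite ℝ P d2 a b := by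
  congr

open Classical in
/-- probability of being special -/
noncomputable def pp (G : SimpleGraph V) (Rm : Sym2 V → Option (Fin K)) (δ3 : ℝ)
    (e : Sym2 V) : ℝ :=
  if e ∈ G.edgeSet then (if Rm e = none then 1 else δ3) else 0

/-- the product measure -/
noncomputable def mu (p : Sym2 V → ℝ) (e : Sym2 V) (a : Option (Fin q)) : ℝ :=
  match a with
  | none => 1 - p e
  | some _ => p e / q

open Classical in
/-- the weights of the variables -/
noncomputable def tau (G : SimpleGraph V) (Rm : Sym2 V → Option (Fin K)) (δ3 : ℝ)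
    (e : Sym2 V) : ℝ :=
  pp G Rm δ3 e / 4 + if e ∈ G.edgeSet ∧ Rm e ≠ none then δ3 / 4 else 0

theorem pp_nonneg (G : SimpleGraph V) (Rm : Sym2 V → Option (Fin K)) (δ3 : ℝ) (d0 : 0 < δ3)
    (e : Sym2 V) : 0 ≤ pp G Rm δ3 e := by
  unfold pp; split_ifs <;> linarith

theorem pp_le (G : SimpleGraph V) (Rm : Sym2 V → Option (Fin K)) (δ3 : ℝ) (d0 : 0 < δ3)
    (d1 : δ3 < 1) (e : Sym2 V) : pp G Rm δ3 e ≤ 1 := by
  unfold pp; split_ifs <;> linarith

theorem tau_le (G : SimpleGraph V) (Rm : Sym2 V → Option (Fin K)) (δ3 : ℝ) (d0 : 0 < δ3)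
    (d1 : δ3 < 1) (e : Sym2 V) : tau G Rm δ3 e ≤ 1 / 2 := by
  have h1 := pp_le G Rm δ3 d0 d1 e
  unfold tau; split_ifs <;> linarith

theorem mu_nonneg (p : Sym2 V → ℝ) (p0 : ∀ e, 0 ≤ p e) (p1 : ∀ e, p e ≤ 1) (e : Sym2 V)
    (a : Option (Fin q)) : 0 ≤ mu p e a := by
  unfold mu
  cases a with
  | none => have := p1 e; linarith
  | some _ => exact div_nonneg (p0 e) (Nat.cast_nonneg _)

theorem mu_sum (p : Sym2 V → ℝ) (q0 : 0 < q) (e : Sym2 V) :
    ∑ a : Option (Fin q), mu p e a = 1 := by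
  rw [Fintype.sum_option]
  unfold mu
  have : (q : ℝ) ≠ 0 := by positivity
  simp only [Finset.sum_const, Finset.card_univ, Fintype.card_fin, nsmul_eq_mul]
  field_simp
  ring

end aux

section sums

open Classical in
theorem pp_mk {V : Type} (G : SimpleGraph V) {K : ℕ} (δ3 : ℝ)
    (R : V → V → Option (Fin K)) (Rs : ∀ u v, R u v = R v u) (u v : V) :
    pp G (Sym2.lift ⟨R, Rs⟩) δ3 s(u, v) =
      if G.Adj u v then (if R u v = none then 1 else δ3) else 0 := by
  by_cases h1 : G.Adj u v <;> by_cases h2 : R u v = none <;> simp [pp, h1, h2]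

open Classical in
theorem row_sum {V : Type} [Fintype V] (G : SimpleGraph V) {K : ℕ} (D : ℕ) (δ1 δ3 : ℝ)
    (d0 : 0 < δ3)
    (hdeg : ∀ v, (univ.filter (fun u => G.Adj v u)).card ≤ D)
    (R : V → V → Option (Fin K)) (Rs : ∀ u v, R u v = R v u)
    (h1 : ∀ v, ((univ.filter (fun u => G.Adj v u ∧ R v u = none)).card : ℝ) ≤ δ1 * D) (v : V) :
    ∑ u, pp G (Sym2.lift ⟨R, Rs⟩) δ3 s(v, u) ≤ (δ1 + δ3) * D := by
  have h2 : ∀ u, pp G (Sym2.lift ⟨R, Rs⟩) δ3 s(v, u) ≤
      (if G.Adj v u ∧ R v u = none then 1 else 0) + (if G.Adj v u then δ3 else 0) := by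
    intro u
    rw [pp_mk]
    by_cases h3 : G.Adj v u <;> by_cases h4 : R v u = none <;> simp [h3, h4]
    linarith
  refine (Finset.sum_le_sum (fun u _ => h2 u)).trans ?_
  rw [Finset.sum_add_distrib, ← Finset.sum_filter, ← Finset.sum_filter, Finset.sum_const,
    Finset.sum_const, nsmul_eq_mul, nsmul_eq_mul, mul_one, add_mul]
  have h5 : (((univ.filter (fun u => G.Adj v u)).card : ℕ) : ℝ) ≤ D := by exact_mod_cast hdeg v
  have h6 := h1 v
  nlinarith

open Classical in
theorem m_sum {V : Type} [Fintype V] (G : SimpleGraph V) {K : ℕ} (D : ℕ) (δ2 δ3 : ℝ)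
    (d0 : 0 < δ3) (R : V → V → Option (Fin K)) (Rs : ∀ u v, R u v = R v u)
    (Rp : ∀ u v w c, R u v = some c → R u w = some c → v = w)
    (h2 : ∀ u v, G.Adj u v → ((univ.filter (fun c : Fin K => ∃ u' v', R u u' = some c ∧
      R v v' = some c ∧ G.Adj u' v' ∧ R u' v' = none)).card : ℝ) ≤ δ2 * D) (u v : V)
    (huv : pp G (Sym2.lift ⟨R, Rs⟩) δ3 s(u, v) ≠ 0) :
    ∑ a : Fin K, ∑ u' : V, ∑ v' : V,
      (if R u u' = some a ∧ R v v' = some a then pp G (Sym2.lift ⟨R, Rs⟩) δ3 s(u', v') else 0)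
      ≤ δ2 * D + δ3 * K := by
  have hadj : G.Adj u v := by
    rw [pp_mk] at huv
    by_contra h
    rw [if_neg h] at huv
    exact huv rfl
  have h3 : ∀ a : Fin K, ∑ u' : V, ∑ v' : V,
      (if R u u' = some a ∧ R v v' = some a then pp G (Sym2.lift ⟨R, Rs⟩) δ3 s(u', v') else 0)
      ≤ (if (∃ u' v', R u u' = some a ∧ R v v' = some a ∧ G.Adj u' v' ∧ R u' v' = none)
          then 1 else 0) + δ3 := by
    intro a
    by_cases h4 : ∃ u₀ v₀, R u u₀ = some a ∧ R v v₀ = some a
    · obtain ⟨u₀, v₀, h5, h6⟩ := h4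
      have h7 : ∀ u' v', (if R u u' = some a ∧ R v v' = some a then
          pp G (Sym2.lift ⟨R, Rs⟩) δ3 s(u', v') else 0) =
          if u' = u₀ then (if v' = v₀ then pp G (Sym2.lift ⟨R, Rs⟩) δ3 s(u₀, v₀) else 0)
            else 0 := by
        intro u' v'
        by_cases h8 : u' = u₀
        · by_cases h9 : v' = v₀
          · rw [h8, h9, if_pos ⟨h5, h6⟩, if_pos rfl, if_pos rfl]
          · rw [if_neg, if_pos h8, if_neg h9]
            rintro ⟨-, h10⟩
            exact h9 (Rp v v' v₀ a h10 h6)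
        · rw [if_neg, if_neg h8]
          rintro ⟨h10, -⟩
          exact h8 (Rp u u' u₀ a h10 h5)
      rw [Finset.sum_congr rfl (fun u' _ => Finset.sum_congr rfl (fun v' _ => h7 u' v'))]
      simp only [Finset.sum_ite_eq', Finset.mem_univ, if_true, Finset.sum_const_zero,
        Finset.sum_ite_irrel]
      by_cases h8 : G.Adj u₀ v₀ ∧ R u₀ v₀ = none
      · rw [if_pos ⟨u₀, v₀, h5, h6, h8.1, h8.2⟩]
        rw [pp_mk, if_pos h8.1, if_pos h8.2]
        linarith
      · have h9 : pp G (Sym2.lift ⟨R, Rs⟩) δ3 s(u₀, v₀) ≤ δ3 := by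
          rw [pp_mk]
          by_cases h10 : G.Adj u₀ v₀
          · rw [if_pos h10, if_neg (fun h11 => h8 ⟨h10, h11⟩)]
          · rw [if_neg h10]; exact d0.le
        have h10 : (0 : ℝ) ≤ (if (∃ u' v', R u u' = some a ∧ R v v' = some a ∧ G.Adj u' v' ∧
            R u' v' = none) then 1 else 0) := by split_ifs <;> norm_num
        linarith
    · have h7 : ∀ u' v', (if R u u' = some a ∧ R v v' = some a then
          pp G (Sym2.lift ⟨R, Rs⟩) δ3 s(u', v') else 0) = 0 := by
        intro u' v'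
        rw [if_neg]
        rintro ⟨h8, h9⟩
        exact h4 ⟨u', v', h8, h9⟩
      rw [Finset.sum_congr rfl (fun u' _ => Finset.sum_congr rfl (fun v' _ => h7 u' v'))]
      simp only [Finset.sum_const_zero]
      have h10 : (0 : ℝ) ≤ (if (∃ u' v', R u u' = some a ∧ R v v' = some a ∧ G.Adj u' v' ∧
          R u' v' = none) then 1 else 0) := by split_ifs <;> norm_num
      linarith
  refine (Finset.sum_le_sum (fun a _ => h3 a)).trans ?_
  rw [Finset.sum_add_distrib, ← Finset.sum_filter, Finset.sum_const, Finset.sum_const,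
    nsmul_eq_mul, nsmul_eq_mul, mul_one, Finset.card_univ, Fintype.card_fin]
  have := h2 u v hadj
  linarith

end sums

section fam

variable {V : Type} {K q : ℕ}

open Classical in
/-- atoms of a pair of adjacent edges with the same new colour -/
noncomputable def C1 (i : V × V × V × Fin q) : Finset (Sym2 V × Option (Fin q)) :=
  {(s(i.1, i.2.1), some i.2.2.2), (s(i.1, i.2.2.1), some i.2.2.2)}

open Classical in
/-- atoms of a cycle in two new colours -/
noncomputable def C2 (i : Σ n : ℕ, (Fin (2 * n + 4) → V) × (Fin q × Fin q)) :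
    Finset (Sym2 V × Option (Fin q)) :=
  univ.image (fun j : Fin (2 * i.1 + 4) =>
    (s(i.2.1 j, i.2.1 (j + 1)), some (if (j : ℕ) % 2 = 0 then i.2.2.1 else i.2.2.2)))

open Classical in
/-- atoms of a cycle in a new and an old colour -/
noncomputable def C3 (i : Σ n : ℕ, Fin K × ((Fin (n + 2) → V) × (Fin (n + 2) → V)) × Fin q) :
    Finset (Sym2 V × Option (Fin q)) :=
  univ.image (fun j : Fin (i.1 + 2) => (s(i.2.2.1.1 j, i.2.2.1.2 j), some i.2.2.2))

open Classical in
/-- atoms of a path in two old colours -/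
noncomputable def C4 {r : ℕ} (i : (Fin (r + 1) → V) × Fin K × Fin K) :
    Finset (Sym2 V × Option (Fin q)) :=
  univ.image (fun j : Fin r => (s(i.1 j.castSucc, i.1 j.succ), none))

theorem hx1 (p τ : Sym2 V → ℝ) (p0 : ∀ e, 0 ≤ p e) (τh : ∀ e, τ e ≤ 1 / 2)
    (i : V × V × V × Fin q) (hi : i.2.1 ≠ i.2.2.1) :
    ∏ z ∈ C1 i, mu p z.1 z.2 ≤
      ((2 * p s(i.1, i.2.1) / q) * (2 * p s(i.1, i.2.2.1) / q)) * ∏ z ∈ C1 i, (1 - τ z.1) := by
  classical
  have hne : ((s(i.1, i.2.1), some i.2.2.2) : Sym2 V × Option (Fin q)) ≠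
      (s(i.1, i.2.2.1), some i.2.2.2) := by
    intro h
    have h1 := (Prod.ext_iff.mp h).1
    simp only at h1
    exact hi (Sym2.congr_right.mp h1)
  unfold C1
  rw [Finset.prod_pair hne, Finset.prod_pair hne]
  simp only [mu]
  have a1 := p0 s(i.1, i.2.1)
  have a2 := p0 s(i.1, i.2.2.1)
  have b1 := τh s(i.1, i.2.1)
  have b2 := τh s(i.1, i.2.2.1)
  have e1 : p s(i.1, i.2.1) / q ≤ (2 * p s(i.1, i.2.1) / q) * (1 - τ s(i.1, i.2.1)) := by
    have : 0 ≤ p s(i.1, i.2.1) / q := div_nonneg a1 (Nat.cast_nonneg _)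
    rw [mul_div_assoc]
    nlinarith
  have e2 : p s(i.1, i.2.2.1) / q ≤
      (2 * p s(i.1, i.2.2.1) / q) * (1 - τ s(i.1, i.2.2.1)) := by
    have : 0 ≤ p s(i.1, i.2.2.1) / q := div_nonneg a2 (Nat.cast_nonneg _)
    rw [mul_div_assoc]
    nlinarith
  have e3 : 0 ≤ p s(i.1, i.2.1) / q := div_nonneg a1 (Nat.cast_nonneg _)
  have e4 : 0 ≤ p s(i.1, i.2.2.1) / q := div_nonneg a2 (Nat.cast_nonneg _)
  calc p s(i.1, i.2.1) / q * (p s(i.1, i.2.2.1) / q)
      ≤ ((2 * p s(i.1, i.2.1) / q) * (1 - τ s(i.1, i.2.1))) *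
        ((2 * p s(i.1, i.2.2.1) / q) * (1 - τ s(i.1, i.2.2.1))) :=
        mul_le_mul e1 e2 e4 (e3.trans e1)
    _ = _ := by ring

theorem hxg {ι : Type} [Fintype ι] (p τ : Sym2 V → ℝ) (p0 : ∀ e, 0 ≤ p e)
    (τh : ∀ e, τ e ≤ 1 / 2) (g : ι → Sym2 V) (c : ι → Fin q)
    (C : Finset (Sym2 V × Option (Fin q)))
    (hC : ∀ F : Sym2 V × Option (Fin q) → ℝ, ∏ z ∈ C, F z = ∏ j, F (g j, some (c j))) :
    ∏ z ∈ C, mu p z.1 z.2 ≤ (∏ j, (2 * p (g j) / q)) * ∏ z ∈ C, (1 - τ z.1) := by
  rw [hC, hC, ← Finset.prod_mul_distrib]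
  refine Finset.prod_le_prod ?_ ?_
  · intro j _
    exact div_nonneg (p0 _) (Nat.cast_nonneg _)
  · intro j _
    simp only [mu]
    have : 0 ≤ p (g j) / q := div_nonneg (p0 _) (Nat.cast_nonneg _)
    have h2 := τh (g j)
    rw [mul_div_assoc]
    nlinarith

open Classical in
theorem s1 [Fintype V] (p : Sym2 V → ℝ) (p0 : ∀ e, 0 ≤ p e) (W : ℝ)
    (hW : ∀ v, ∑ u, p s(v, u) ≤ W) (q0 : 0 < q) (hq : 256 * W ≤ q)
    (I1 : Finset (V × V × V × Fin q)) (e : Sym2 V) :
    ∑ i ∈ I1, (if ∃ a, (e, a) ∈ C1 i then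
      (2 * p s(i.1, i.2.1) / q) * (2 * p s(i.1, i.2.2.1) / q) else 0) ≤ p e / 16 := by
  rw [← Finset.sum_filter]
  refine (Finset.sum_le_sum_of_subset_of_nonneg ?_ ?_).trans (b1 p p0 W hW q q0 hq e)
  · intro i hi
    rw [Finset.mem_filter] at hi ⊢
    obtain ⟨-, a, ha⟩ := hi
    refine ⟨Finset.mem_univ _, ?_⟩
    unfold C1 at ha
    rw [Finset.mem_insert, Finset.mem_singleton] at ha
    rcases ha with h | h
    · exact Or.inl (Prod.ext_iff.mp h).1
    · exact Or.inr (Prod.ext_iff.mp h).1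
  · intro i _ _
    have a1 := p0 s(i.1, i.2.1)
    have a2 := p0 s(i.1, i.2.2.1)
    positivity

open Classical in
theorem s2 [Fintype V] (p : Sym2 V → ℝ) (p0 : ∀ e, 0 ≤ p e) (p1 : ∀ e, p e ≤ 1) (W : ℝ)
    (hW : ∀ v, ∑ u, p s(v, u) ≤ W) (q0 : 0 < q) (hq : 256 * W ≤ q) (N : ℕ)
    (J : (n : ℕ) → Finset ((Fin (2 * n + 4) → V) × (Fin q × Fin q))) (e : Sym2 V) :
    ∑ i ∈ (range N).sigma J, (if ∃ a, (e, a) ∈ C2 i then
      ∏ j, (2 * p s(i.2.1 j, i.2.1 (j + 1)) / q) else 0) ≤ p e / 16 := by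
  refine le_trans ?_ (b2tot p p0 p1 W hW q q0 hq N e)
  rw [Finset.sum_sigma]
  refine Finset.sum_le_sum ?_
  intro n _
  have hnn : ∀ v : Fin (2 * n + 4) → V, 0 ≤ ∏ j, (2 * p s(v j, v (j + 1)) / q) := by
    intro v
    refine Finset.prod_nonneg ?_
    intro j _
    have := p0 s(v j, v (j + 1))
    positivity
  calc ∑ z ∈ J n, (if ∃ a, (e, a) ∈ C2 ⟨n, z⟩ then
        ∏ j, (2 * p s(z.1 j, z.1 (j + 1)) / q) else 0)
      ≤ ∑ z ∈ J n, (if ∃ j, e = s(z.1 j, z.1 (j + 1)) then
        ∏ j, (2 * p s(z.1 j, z.1 (j + 1)) / q) else 0) := by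
        refine Finset.sum_le_sum ?_
        intro z _
        by_cases h1 : ∃ a, (e, a) ∈ C2 (q := q) ⟨n, z⟩
        · have h2 : ∃ j, e = s(z.1 j, z.1 (j + 1)) := by
            obtain ⟨a, ha⟩ := h1
            unfold C2 at ha
            rw [Finset.mem_image] at ha
            obtain ⟨j, -, hj⟩ := ha
            exact ⟨j, (Prod.ext_iff.mp hj).1.symm⟩
          rw [if_pos h1, if_pos h2]
        · rw [if_neg h1]
          split_ifs
          · exact hnn _
          · exact le_rfl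
    _ ≤ ∑ z : (Fin (2 * n + 4) → V) × (Fin q × Fin q),
        (if ∃ j, e = s(z.1 j, z.1 (j + 1)) then
        ∏ j, (2 * p s(z.1 j, z.1 (j + 1)) / q) else 0) := by
        refine Finset.sum_le_sum_of_subset_of_nonneg (Finset.subset_univ _) ?_
        intro z _ _
        split_ifs
        · exact hnn _
        · exact le_rfl
    _ = _ := by
        rw [Fintype.sum_prod_type, Finset.sum_filter]
        refine Finset.sum_congr rfl ?_
        intro v _
        simp only
        split_ifs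
        · rfl
        · simp

open Classical in
theorem s3 [Fintype V] (R : V → V → Option (Fin K))
    (Rs : ∀ u v, R u v = R v u)
    (Rp : ∀ u v w c, R u v = some c → R u w = some c → v = w)
    (p : Sym2 V → ℝ) (p0 : ∀ e, 0 ≤ p e) (p1 : ∀ e, p e ≤ 1)
    (W : ℝ) (hW : ∀ v, ∑ u, p s(v, u) ≤ W) (q0 : 0 < q) (hq : 256 * W ≤ q)
    (m : ℝ)
    (hm : ∀ u v, p s(u, v) ≠ 0 → ∑ a : Fin K, ∑ u' : V, ∑ v' : V,
      (if R u u' = some a ∧ R v v' = some a then p s(u', v') else 0) ≤ m)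
    (hm1 : 256 * m ≤ q) (hK : 1024 * K * W ≤ (q : ℝ) ^ 2) (N : ℕ)
    (J : (n : ℕ) → Finset (Fin K × ((Fin (n + 2) → V) × (Fin (n + 2) → V)) × Fin q))
    (hJ : ∀ n, ∀ z ∈ J n, ∀ i, R (z.2.1.2 i) (z.2.1.1 (i + 1)) = some z.1) (e : Sym2 V) :
    ∑ i ∈ (range N).sigma J, (if ∃ a, (e, a) ∈ C3 i then
      ∏ j, (2 * p s(i.2.2.1.1 j, i.2.2.1.2 j) / q) else 0) ≤ p e / 8 := by
  refine le_trans ?_ (b3tot R Rs Rp p p0 p1 W hW q q0 hq m hm hm1 hK N e)
  rw [Finset.sum_sigma]
  refine Finset.sum_le_sum ?_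
  intro n _
  have hnn : ∀ v : (Fin (n + 2) → V) × (Fin (n + 2) → V),
      0 ≤ ∏ j, (2 * p s(v.1 j, v.2 j) / q) := by
    intro v
    refine Finset.prod_nonneg ?_
    intro j _
    have := p0 s(v.1 j, v.2 j)
    positivity
  calc ∑ z ∈ J n, (if ∃ a, (e, a) ∈ C3 ⟨n, z⟩ then
        ∏ j, (2 * p s(z.2.1.1 j, z.2.1.2 j) / q) else 0)
      ≤ ∑ z ∈ J n, (if (∀ i, R (z.2.1.2 i) (z.2.1.1 (i + 1)) = some z.1) ∧
          ∃ j, e = s(z.2.1.1 j, z.2.1.2 j) then
        ∏ j, (2 * p s(z.2.1.1 j, z.2.1.2 j) / q) else 0) := by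
        refine Finset.sum_le_sum ?_
        intro z hz
        by_cases h1 : ∃ a, (e, a) ∈ C3 (K := K) (q := q) ⟨n, z⟩
        · have h2 : ∃ j, e = s(z.2.1.1 j, z.2.1.2 j) := by
            obtain ⟨a, ha⟩ := h1
            unfold C3 at ha
            rw [Finset.mem_image] at ha
            obtain ⟨j, -, hj⟩ := ha
            exact ⟨j, (Prod.ext_iff.mp hj).1.symm⟩
          rw [if_pos h1, if_pos ⟨hJ n z hz, h2⟩]
        · rw [if_neg h1]
          split_ifs
          · exact hnn _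
          · exact le_rfl
    _ ≤ ∑ z : Fin K × ((Fin (n + 2) → V) × (Fin (n + 2) → V)) × Fin q,
        (if (∀ i, R (z.2.1.2 i) (z.2.1.1 (i + 1)) = some z.1) ∧
          ∃ j, e = s(z.2.1.1 j, z.2.1.2 j) then
        ∏ j, (2 * p s(z.2.1.1 j, z.2.1.2 j) / q) else 0) := by
        refine Finset.sum_le_sum_of_subset_of_nonneg (Finset.subset_univ _) ?_
        intro z _ _
        split_ifs
        · exact hnn _
        · exact le_rfl
    _ = _ := by
        rw [Fintype.sum_prod_type]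
        refine Finset.sum_congr rfl ?_
        intro a _
        rw [Fintype.sum_prod_type, Finset.sum_filter]
        refine Finset.sum_congr rfl ?_
        intro v _
        simp only
        split_ifs
        · rfl
        · simp

open Classical in
theorem s4 [Fintype V] (G : SimpleGraph V) (R : V → V → Option (Fin K))
    (Rs : ∀ u v, R u v = R v u) (Radj : ∀ u v, R u v ≠ none → G.Adj u v)
    (Rp : ∀ u v w c, R u v = some c → R u w = some c → v = w) (δ3 : ℝ) (d0 : 0 < δ3)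
    (d1 : δ3 < 1) (r : ℕ) (n4 : 2 * r * K * (1 - δ3 / 2) ^ r ≤ δ3 / 4)
    (J : Finset ((Fin (r + 1) → V) × Fin K × Fin K))
    (hJ : ∀ z ∈ J, ∀ i : Fin r, R (z.1 i.castSucc) (z.1 i.succ) =
      some (if (i : ℕ) % 2 = 0 then z.2.1 else z.2.2)) (e : Sym2 V) :
    ∑ i ∈ J, (if ∃ a, (e, a) ∈ C4 (q := q) i then (1 - δ3 / 2) ^ r else 0) ≤
      if e ∈ G.edgeSet ∧ Sym2.lift ⟨R, Rs⟩ e ≠ none then δ3 / 4 else 0 := by
  have hx : 0 ≤ (1 - δ3 / 2) ^ r := by
    refine pow_nonneg ?_ r
    linarith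
  have hmem : ∀ z ∈ J, (∃ a, (e, a) ∈ C4 (q := q) z) →
      ∃ i : Fin r, e = s(z.1 i.castSucc, z.1 i.succ) := by
    rintro z _ ⟨a, ha⟩
    unfold C4 at ha
    rw [Finset.mem_image] at ha
    obtain ⟨j, -, hj⟩ := ha
    exact ⟨j, (Prod.ext_iff.mp hj).1.symm⟩
  by_cases he : e ∈ G.edgeSet ∧ Sym2.lift ⟨R, Rs⟩ e ≠ none
  · rw [if_pos he]
    rw [← Finset.sum_filter, Finset.sum_const, nsmul_eq_mul]
    refine le_trans (mul_le_mul_of_nonneg_right ?_ hx) n4
    refine le_trans ?_ (b4 R Rs Rp r e)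
    rw [Nat.cast_le]
    refine Finset.card_le_card ?_
    intro z hz
    rw [Finset.mem_filter] at hz ⊢
    exact ⟨Finset.mem_univ _, hJ z hz.1, hmem z hz.1 hz.2⟩
  · rw [if_neg he]
    refine le_of_eq ?_
    refine Finset.sum_eq_zero ?_
    intro z hz
    rw [if_neg]
    intro h
    obtain ⟨i, hi⟩ := hmem z hz h
    refine he ?_
    have h2 := hJ z hz i
    rw [hi]
    constructor
    · rw [SimpleGraph.mem_edgeSet]
      refine Radj _ _ ?_
      rw [h2]
      exact Option.some_ne_none _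
    · rw [Sym2.lift_mk]
      simp only
      rw [h2]
      exact Option.some_ne_none _

end fam

open Classical in
/-- Completion of a partial colouring, explicit parameters. -/
theorem finish {V : Type} [Fintype V] (G : SimpleGraph V) (D K q r : ℕ) (δ1 δ2 δ3 : ℝ)
    (hdeg : ∀ v, (univ.filter (fun u => G.Adj v u)).card ≤ D)
    (R : V → V → Option (Fin K)) (Rs : ∀ u v, R u v = R v u)
    (Radj : ∀ u v, R u v ≠ none → G.Adj u v)
    (Rp : ∀ u v w c, R u v = some c → R u w = some c → v = w)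
    (Rc : ∀ (n : ℕ) (x : Fin (2 * n + 4) → V) (b c : Fin K), Function.Injective x → b ≠ c →
      (∀ i, R (x i) (x (i + 1)) = some (if (i : ℕ) % 2 = 0 then b else c)) → r + 1 < 2 * n + 4)
    (h1 : ∀ v, ((univ.filter (fun u => G.Adj v u ∧ R v u = none)).card : ℝ) ≤ δ1 * D)
    (h2 : ∀ u v, G.Adj u v → ((univ.filter (fun c : Fin K => ∃ u' v', R u u' = some c ∧
      R v v' = some c ∧ G.Adj u' v' ∧ R u' v' = none)).card : ℝ) ≤ δ2 * D)
    (d0 : 0 < δ3) (d1 : δ3 < 1) (q0 : 0 < q) (r0 : 0 < r)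
    (n1 : 256 * ((δ1 + δ3) * D) ≤ q) (n2 : 256 * (δ2 * D + δ3 * K) ≤ q)
    (n3 : 1024 * K * ((δ1 + δ3) * D) ≤ (q : ℝ) ^ 2)
    (n4 : 2 * r * K * (1 - δ3 / 2) ^ r ≤ δ3 / 4) :
    ∃ c : V → V → Fin (K + q),
      (∀ u v : V, c u v = c v u) ∧
      (∀ u v w : V, G.Adj u v → G.Adj u w → v ≠ w → c u v ≠ c u w) ∧
      (∀ (u : V) (p : G.Walk u u), p.IsCycle →
          3 ≤ (p.darts.map (fun d => c d.toProd.1 d.toProd.2)).toFinset.card) := by
  set Rm : Sym2 V → Option (Fin K) := Sym2.lift ⟨R, Rs⟩ with hRm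
  set p : Sym2 V → ℝ := pp G Rm δ3 with hp
  set τ : Sym2 V → ℝ := tau G Rm δ3 with hτ
  have p0 : ∀ e, 0 ≤ p e := pp_nonneg G Rm δ3 d0
  have p1 : ∀ e, p e ≤ 1 := pp_le G Rm δ3 d0 d1
  have τh : ∀ e, τ e ≤ 1 / 2 := tau_le G Rm δ3 d0 d1
  have hW : ∀ v, ∑ u, p s(v, u) ≤ (δ1 + δ3) * D := row_sum G D δ1 δ3 d0 hdeg R Rs h1
  have hm := m_sum G D δ2 δ3 d0 R Rs Rp h2
  set N : ℕ := Fintype.card V + 1 with hN
  set I1 : Finset (V × V × V × Fin q) := univ.filter (fun i => i.2.1 ≠ i.2.2.1) with hI1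
  set J2 : (n : ℕ) → Finset ((Fin (2 * n + 4) → V) × (Fin q × Fin q)) :=
    fun n => univ.filter (fun z => Function.Injective z.1) with hJ2
  set J3 : (n : ℕ) → Finset (Fin K × ((Fin (n + 2) → V) × (Fin (n + 2) → V)) × Fin q) :=
    fun n => univ.filter (fun z => Function.Injective z.2.1.1 ∧ Function.Injective z.2.1.2 ∧
      (∀ i j, z.2.1.1 i ≠ z.2.1.2 j) ∧
      ∀ i, R (z.2.1.2 i) (z.2.1.1 (i + 1)) = some z.1) with hJ3
  set I4 : Finset ((Fin (r + 1) → V) × Fin K × Fin K) :=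
    univ.filter (fun z => Function.Injective z.1 ∧
      ∀ i : Fin r, R (z.1 i.castSucc) (z.1 i.succ) =
        some (if (i : ℕ) % 2 = 0 then z.2.1 else z.2.2)) with hI4
  obtain ⟨f, hf0, hf⟩ := lllc (E := Sym2 V) (A := Option (Fin q)) (mu p)
    (mu_nonneg p p0 p1) (mu_sum p q0)
    (I1.disjSum (((range N).sigma J2).disjSum (((range N).sigma J3).disjSum I4)))
    (Sum.elim C1 (Sum.elim C2 (Sum.elim C3 C4)))
    (Sum.elim (fun i => (2 * p s(i.1, i.2.1) / q) * (2 * p s(i.1, i.2.2.1) / q))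
      (Sum.elim (fun i => ∏ j, (2 * p s(i.2.1 j, i.2.1 (j + 1)) / q))
      (Sum.elim (fun i => ∏ j, (2 * p s(i.2.2.1.1 j, i.2.2.1.2 j) / q))
        (fun _ => (1 - δ3 / 2) ^ r)))) τ
    (by
      intro i hi
      rcases i with i | i | i | i
      · exact ⟨_, Finset.mem_insert_self _ _⟩
      · exact ⟨_, Finset.mem_image_of_mem _ (Finset.mem_univ 0)⟩
      · exact ⟨_, Finset.mem_image_of_mem _ (Finset.mem_univ 0)⟩
      · exact ⟨_, Finset.mem_image_of_mem _ (Finset.mem_univ ⟨0, r0⟩)⟩)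
    (by
      intro i _
      rcases i with i | i | i | i
      · have a1 := p0 s(i.1, i.2.1)
        have a2 := p0 s(i.1, i.2.2.1)
        simp only [Sum.elim_inl]
        positivity
      · simp only [Sum.elim_inl, Sum.elim_inr]
        refine Finset.prod_nonneg ?_
        intro j _
        have := p0 s(i.2.1 j, i.2.1 (j + 1))
        positivity
      · simp only [Sum.elim_inl, Sum.elim_inr]
        refine Finset.prod_nonneg ?_
        intro j _
        have := p0 s(i.2.2.1.1 j, i.2.2.1.2 j)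
        positivity
      · simp only [Sum.elim_inr]
        refine pow_nonneg ?_ r
        linarith)
    (fun e => by have := τh e; linarith)
    (by
      intro e
      rw [Finset.sum_filter, Finset.sum_disjSum, Finset.sum_disjSum, Finset.sum_disjSum]
      simp only [Sum.elim_inl, Sum.elim_inr]
      have t1 := s1 p p0 _ hW q0 n1 I1 e
      have t2 := s2 p p0 p1 _ hW q0 n1 N J2 e
      have t3 := s3 R Rs Rp p p0 p1 _ hW q0 n1 _ hm n2 n3 N J3 (by
        intro n z hz
        rw [hJ3, Finset.mem_filter] at hz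
        exact hz.2.2.2.2) e
      have t4 := s4 (q := q) G R Rs Radj Rp δ3 d0 d1 r n4 I4 (by
        intro z hz
        rw [hI4, Finset.mem_filter] at hz
        exact hz.2.2) e
      have t5 : τ e = p e / 16 + (p e / 16 + (p e / 8 +
          if e ∈ G.edgeSet ∧ Sym2.lift ⟨R, Rs⟩ e ≠ none then δ3 / 4 else 0)) := by
        rw [hτ]
        unfold tau
        by_cases h : e ∈ G.edgeSet ∧ Sym2.lift ⟨R, Rs⟩ e ≠ none
        · simp only [← hRm] at h ⊢
          simp only [if_pos h, hp]; ring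
        · simp only [← hRm] at h ⊢
          simp only [if_neg h, hp]; ring
      rw [t5]
      refine add_le_add ?_ (add_le_add ?_ (add_le_add ?_ ?_))
      · exact le_trans (le_of_eq (Finset.sum_congr rfl (fun i _ => ite_inst _ _ _ _ _))) t1
      · exact le_trans (le_of_eq (Finset.sum_congr rfl (fun i _ => ite_inst _ _ _ _ _))) t2
      · exact le_trans (le_of_eq (Finset.sum_congr rfl (fun i _ => ite_inst _ _ _ _ _))) t3
      · exact le_trans (le_of_eq (Finset.sum_congr rfl (fun i _ => ite_inst _ _ _ _ _))) t4)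
    (by
      intro i hi
      rw [Finset.mem_disjSum] at hi
      rcases i with i | i | i | i
      · simp only [Sum.elim_inl]
        refine hx1 p τ p0 τh i ?_
        rcases hi with ⟨j, hj, hj2⟩ | ⟨j, hj, hj2⟩
        · rw [Sum.inl.injEq] at hj2
          rw [hI1, Finset.mem_filter] at hj
          rw [← hj2]
          exact hj.2
        · cases hj2
      · simp only [Sum.elim_inl, Sum.elim_inr]
        have hinj : Function.Injective i.2.1 := by
          rcases hi with ⟨j, hj, hj2⟩ | ⟨j, hj, hj2⟩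
          · cases hj2
          · rw [Sum.inr.injEq] at hj2
            rw [hj2, Finset.mem_disjSum] at hj
            rcases hj with ⟨k, hk, hk2⟩ | ⟨k, hk, hk2⟩
            · rw [Sum.inl.injEq] at hk2
              rw [hk2, Finset.mem_sigma] at hk
              have := hk.2
              rw [hJ2, Finset.mem_filter] at this
              exact this.2
            · cases hk2
        refine hxg p τ p0 τh (fun j : Fin (2 * i.1 + 4) => s(i.2.1 j, i.2.1 (j + 1)))
          (fun j => if (j : ℕ) % 2 = 0 then i.2.2.1 else i.2.2.2) _ ?_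
        intro F
        unfold C2
        rw [Finset.prod_image]
        intro j _ k _ hjk
        exact edges_inj i.1 i.2.1 hinj (Prod.ext_iff.mp hjk).1
      · simp only [Sum.elim_inl, Sum.elim_inr]
        have hinj : Function.Injective i.2.2.1.1 ∧ (∀ k j, i.2.2.1.1 k ≠ i.2.2.1.2 j) := by
          rcases hi with ⟨j, hj, hj2⟩ | ⟨j, hj, hj2⟩
          · cases hj2
          · rw [Sum.inr.injEq] at hj2
            rw [hj2, Finset.mem_disjSum] at hj
            rcases hj with ⟨k, hk, hk2⟩ | ⟨k, hk, hk2⟩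
            · cases hk2
            · rw [Sum.inr.injEq] at hk2
              rw [hk2, Finset.mem_disjSum] at hk
              rcases hk with ⟨l, hl, hl2⟩ | ⟨l, hl, hl2⟩
              · rw [Sum.inl.injEq] at hl2
                rw [hl2, Finset.mem_sigma] at hl
                have := hl.2
                rw [hJ3, Finset.mem_filter] at this
                exact ⟨this.2.1, this.2.2.2.1⟩
              · cases hl2
        refine hxg p τ p0 τh (fun j : Fin (i.1 + 2) => s(i.2.2.1.1 j, i.2.2.1.2 j))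
          (fun _ => i.2.2.2) _ ?_
        intro F
        unfold C3
        rw [Finset.prod_image]
        intro j _ k _ hjk
        exact pair_inj i.2.2.1.1 i.2.2.1.2 hinj.1 hinj.2 (Prod.ext_iff.mp hjk).1
      · simp only [Sum.elim_inr]
        have hinj : Function.Injective i.1 ∧ ∀ j : Fin r, R (i.1 j.castSucc) (i.1 j.succ) =
            some (if (j : ℕ) % 2 = 0 then i.2.1 else i.2.2) := by
          rcases hi with ⟨j, hj, hj2⟩ | ⟨j, hj, hj2⟩
          · cases hj2
          · rw [Sum.inr.injEq] at hj2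
            rw [hj2, Finset.mem_disjSum] at hj
            rcases hj with ⟨k, hk, hk2⟩ | ⟨k, hk, hk2⟩
            · cases hk2
            · rw [Sum.inr.injEq] at hk2
              rw [hk2, Finset.mem_disjSum] at hk
              rcases hk with ⟨l, hl, hl2⟩ | ⟨l, hl, hl2⟩
              · cases hl2
              · rw [Sum.inr.injEq] at hl2
                rw [hl2, hI4, Finset.mem_filter] at hl
                exact hl.2
        have hpe : ∀ j : Fin r, p s(i.1 j.castSucc, i.1 j.succ) = δ3 ∧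
            τ s(i.1 j.castSucc, i.1 j.succ) = δ3 / 2 := by
          intro j
          have h3 : R (i.1 j.castSucc) (i.1 j.succ) ≠ none := by
            rw [hinj.2 j]; exact Option.some_ne_none _
          have h4 := Radj _ _ h3
          have h5 : p s(i.1 j.castSucc, i.1 j.succ) = δ3 := by
            rw [hp, hRm, pp_mk, if_pos h4, if_neg h3]
          refine ⟨h5, ?_⟩
          have h6 : τ s(i.1 j.castSucc, i.1 j.succ) = p s(i.1 j.castSucc, i.1 j.succ) / 4 +
            if s(i.1 j.castSucc, i.1 j.succ) ∈ G.edgeSet ∧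
              Rm s(i.1 j.castSucc, i.1 j.succ) ≠ none then δ3 / 4 else 0 := rfl
          rw [h6, h5, if_pos ⟨h4, h3⟩]
          ring
        unfold C4
        rw [Finset.prod_image, Finset.prod_image]
        · have e1 : ∀ j ∈ (univ : Finset (Fin r)),
              mu (q := q) p s(i.1 j.castSucc, i.1 j.succ) none = 1 - δ3 := by
            intro j _
            simp only [mu]
            rw [(hpe j).1]
          have e2 : ∀ j ∈ (univ : Finset (Fin r)),
              (1 - τ s(i.1 j.castSucc, i.1 j.succ)) = 1 - δ3 / 2 := by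
            intro j _
            rw [(hpe j).2]
          rw [Finset.prod_congr rfl e1, Finset.prod_congr rfl e2, Finset.prod_const,
            Finset.prod_const, Finset.card_univ, Fintype.card_fin, ← mul_pow]
          refine pow_le_pow_left₀ (by linarith) ?_ r
          nlinarith
        · intro j _ k _ hjk
          exact path_inj r i.1 hinj.1 (Prod.ext_iff.mp hjk).1
        · intro j _ k _ hjk
          exact path_inj r i.1 hinj.1 (Prod.ext_iff.mp hjk).1)
  have hcard : ∀ n (x : Fin (2 * n + 4) → V), Function.Injective x → n < N := by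
    intro n x hx
    have := Fintype.card_le_of_injective x hx
    rw [Fintype.card_fin] at this
    omega
  have hcard2 : ∀ n (x : Fin (n + 2) → V), Function.Injective x → n < N := by
    intro n x hx
    have := Fintype.card_le_of_injective x hx
    rw [Fintype.card_fin] at this
    omega
  refine det G q0 R Rs Rp Rc f ?_ ?_ ?_ ?_ ?_
  · intro u v huv hR hf1
    have h3 : mu p s(u, v) (f s(u, v)) = 0 := by
      rw [hf1]
      simp only [mu]
      rw [hp, hRm, pp_mk, if_pos huv, if_pos hR]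
      ring
    have h4 : wt (mu p) f = 0 := by
      unfold wt
      exact Finset.prod_eq_zero (Finset.mem_univ s(u, v)) h3
    rw [h4] at hf0
    exact lt_irrefl _ hf0
  · intro v u w α huw hh
    refine hf (Sum.inl (v, u, w, α)) ?_ ?_
    · rw [Finset.inl_mem_disjSum, hI1, Finset.mem_filter]
      exact ⟨Finset.mem_univ _, huw⟩
    · intro z hz
      simp only [Sum.elim_inl] at hz
      unfold C1 at hz
      rw [Finset.mem_insert, Finset.mem_singleton] at hz
      rcases hz with h | h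
      · rw [h]; exact hh.1
      · rw [h]; exact hh.2
  · intro n x α β hx _ hh
    refine hf (Sum.inr (Sum.inl ⟨n, (x, (α, β))⟩)) ?_ ?_
    · rw [Finset.inr_mem_disjSum, Finset.inl_mem_disjSum, Finset.mem_sigma]
      refine ⟨Finset.mem_range.mpr (hcard n x hx), ?_⟩
      rw [hJ2, Finset.mem_filter]
      exact ⟨Finset.mem_univ _, hx⟩
    · intro z hz
      simp only [Sum.elim_inl, Sum.elim_inr] at hz
      unfold C2 at hz
      rw [Finset.mem_image] at hz
      obtain ⟨j, -, hj⟩ := hz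
      rw [← hj]
      exact hh j
  · intro n x y a α hx hy hxy hR hh
    refine hf (Sum.inr (Sum.inr (Sum.inl ⟨n, (a, ((x, y), α))⟩))) ?_ ?_
    · rw [Finset.inr_mem_disjSum, Finset.inr_mem_disjSum, Finset.inl_mem_disjSum,
        Finset.mem_sigma]
      refine ⟨Finset.mem_range.mpr (hcard2 n x hx), ?_⟩
      rw [hJ3, Finset.mem_filter]
      exact ⟨Finset.mem_univ _, hx, hy, hxy, hR⟩
    · intro z hz
      simp only [Sum.elim_inl, Sum.elim_inr] at hz
      unfold C3 at hz
      rw [Finset.mem_image] at hz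
      obtain ⟨j, -, hj⟩ := hz
      rw [← hj]
      exact hh j
  · intro x b c hx _ hR hh
    refine hf (Sum.inr (Sum.inr (Sum.inr (x, b, c)))) ?_ ?_
    · rw [Finset.inr_mem_disjSum, Finset.inr_mem_disjSum, Finset.inr_mem_disjSum, hI4,
        Finset.mem_filter]
      exact ⟨Finset.mem_univ _, hx, hR⟩
    · intro z hz
      simp only [Sum.elim_inr] at hz
      unfold C4 at hz
      rw [Finset.mem_image] at hz
      obtain ⟨j, -, hj⟩ := hz
      rw [← hj]
      exact hh j

end Pool.Agent.H70.AE
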