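import Pool.Agent.H70.AE.Defs

/-!
# AE-IND: independence in a finite product space

`P` depends only on the coordinates in `S`, `Q` only on the coordinates outside `S`; then
`Pr (P and Q) = Pr P * Pr Q`; and the total mass is one.

Proof. `Pr univ`: `Finset.prod_univ_sum` (or `Fintype.prod_sum`) gives `∑ f, ∏ e, μ e (f e) = ∏ e, ∑ a, μ e a = 1`.
Independence: for assignments `f, g` put `f|g e = if e ∈ S then f e else g e`. Then
`wt f * wt g = wt (f|g) * wt (g|f)` (termwise, `Finset.prod_mul_distrib`), and the map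
`(f, g) ↦ (f|g, g|f)` is an involution of `(E → A) × (E → A)`. So
`Pr P * Pr Q = ∑_{f,g} [P f] [Q g] wt f * wt g = ∑_{f,g} [P (f|g)] [Q (f|g)] wt (f|g) * wt (g|f)`
`= ∑_{f',g'} [P f' ∧ Q f'] wt f' * wt g' = Pr (P ∧ Q) * 1` (`Equiv.sum_comp` / `Finset.sum_equiv` with the
involution). Another way: split the product with `Equiv.piEquivPiSubtypeProd`.
-/

set_option autoImplicit false

open Finset

namespace Pool.Agent.H70.AE

open Classical in
theorem sum_wt {E A : Type} [Fintype E] [Fintype A] (μ : E → A → ℝ)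
    (h1 : ∀ e, ∑ a, μ e a = 1) : ∑ f : E → A, wt μ f = 1 := by
  have h := Finset.prod_univ_sum (fun _ : E => (Finset.univ : Finset A)) μ
  rw [Fintype.piFinset_univ] at h
  unfold wt
  rw [← h]
  exact Finset.prod_eq_one fun e _ => h1 e

theorem pr_true {E A : Type} [Fintype E] [Fintype A] (μ : E → A → ℝ)
    (h1 : ∀ e, ∑ a, μ e a = 1) : Pr μ (fun _ => True) = 1 := by
  unfold Pr
  simp only [if_true]
  exact sum_wt μ h1

/-- exchange the coordinates outside `S` -/
def swp {E A : Type} (S : Finset E) [DecidablePred (· ∈ S)] (p : (E → A) × (E → A)) :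
    (E → A) × (E → A) :=
  (fun e => if e ∈ S then p.1 e else p.2 e, fun e => if e ∈ S then p.2 e else p.1 e)

theorem swp_swp {E A : Type} (S : Finset E) [DecidablePred (· ∈ S)] :
    Function.Involutive (swp (A := A) S) := by
  rintro ⟨f, g⟩
  unfold swp
  ext e
  · by_cases h : e ∈ S <;> simp [h]
  · by_cases h : e ∈ S <;> simp [h]

theorem wt_swp {E A : Type} [Fintype E] [Fintype A] (μ : E → A → ℝ) (S : Finset E)
    [DecidablePred (· ∈ S)] (p : (E → A) × (E → A)) :
    wt μ (swp S p).1 * wt μ (swp S p).2 = wt μ p.1 * wt μ p.2 := by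
  unfold wt
  rw [← Finset.prod_mul_distrib, ← Finset.prod_mul_distrib]
  refine Finset.prod_congr rfl fun e _ => ?_
  unfold swp
  by_cases h : e ∈ S
  · simp [h]
  · simp [h, mul_comm]

theorem pr_indep {E A : Type} [Fintype E] [Fintype A] (μ : E → A → ℝ)
    (h1 : ∀ e, ∑ a, μ e a = 1) (S : Finset E) (P Q : (E → A) → Prop)
    (hP : ∀ f g : E → A, (∀ e ∈ S, f e = g e) → P f → P g)
    (hQ : ∀ f g : E → A, (∀ e, e ∉ S → f e = g e) → Q f → Q g) :
    Pr μ (fun f => P f ∧ Q f) = Pr μ P * Pr μ Q := by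
  classical
  have hP' : ∀ f g : E → A, (∀ e ∈ S, f e = g e) → (P f ↔ P g) := fun f g h =>
    ⟨hP f g h, hP g f fun e he => (h e he).symm⟩
  have hQ' : ∀ f g : E → A, (∀ e, e ∉ S → f e = g e) → (Q f ↔ Q g) := fun f g h =>
    ⟨hQ f g h, hQ g f fun e he => (h e he).symm⟩
  let G : (E → A) × (E → A) → ℝ := fun p =>
    (if P p.1 ∧ Q p.1 then wt μ p.1 else 0) * wt μ p.2
  have hG : ∑ p, G p = Pr μ (fun f => P f ∧ Q f) := by
    have h2 : ∑ p, G p = (∑ f : E → A, if P f ∧ Q f then wt μ f else 0) *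
        ∑ g : E → A, wt μ g := by
      rw [Finset.sum_mul_sum, ← Finset.sum_product']
      rfl
    rw [h2, sum_wt μ h1, mul_one]
    unfold Pr
    exact Finset.sum_congr rfl fun f _ => by congr
  have hcomp : ∑ p, G (swp S p) = ∑ p, G p :=
    Equiv.sum_comp (swp_swp (A := A) S).toPerm G
  have hprod : Pr μ P * Pr μ Q = ∑ p, G (swp S p) := by
    unfold Pr
    rw [Finset.sum_mul_sum, ← Finset.sum_product']
    refine Finset.sum_congr rfl fun p _ => ?_
    have e1 : P (swp S p).1 ↔ P p.1 := hP' _ _ fun e he => by simp [swp, he]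
    have e2 : Q (swp S p).1 ↔ Q p.2 := hQ' _ _ fun e he => by simp [swp, he]
    have e3 := wt_swp μ S p
    by_cases h3 : P p.1
    · by_cases h4 : Q p.2
      · have h5 : P (swp S p).1 ∧ Q (swp S p).1 := ⟨e1.2 h3, e2.2 h4⟩
        simp only [G, if_pos h3, if_pos h4, if_pos h5]
        exact e3.symm
      · have h5 : ¬ (P (swp S p).1 ∧ Q (swp S p).1) := fun h => h4 (e2.1 h.2)
        simp only [G, if_neg h4, if_neg h5, mul_zero, zero_mul]
    · have h5 : ¬ (P (swp S p).1 ∧ Q (swp S p).1) := fun h => h3 (e1.1 h.1)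
      simp only [G, if_neg h3, if_neg h5, zero_mul]
  rw [hprod, hcomp, hG]

end Pool.Agent.H70.AE
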