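import Pool.Agent.H70.AE.Ind

/-!
# AE-LLL: the (asymmetric) local lemma in a finite product space

Events `Q i` (`i ∈ I`), `Q i` depends only on the coordinates in `S i`. If
`Pr (Q i) ≤ x i * ∏_{j ∈ I, j ≠ i, S j meets S i} (1 - x j)` for all `i ∈ I` then some assignment of positive
weight avoids all events.

Proof. For `J ⊆ I` let `N J = Pr (fun f => ∀ j ∈ J, ¬ Q j f)`.
Claim: for all `J ⊆ I` and `i ∈ I`: `Pr (fun f => Q i f ∧ ∀ j ∈ J, ¬ Q j f) ≤ x i * N J`
(strong induction on `J.card`). Let `J₁ = {j ∈ J : j ≠ i ∧ S j meets S i}`; if `i ∈ J` the left side is `0`, so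
assume `i ∉ J`; `J₂ = J \ J₁`. The left side is `≤ Pr (Q i and avoid J₂) = Pr (Q i) * N J₂` (`pr_indep` with
`S = S i`: the events of `J₂` depend only on coordinates outside `S i`). Adding the elements of `J₁` one by
one to `J₂` and using the claim for the smaller sets `J₂ ∪ J'` (`J' ⊂ J₁` proper):
`N (insert j J'') = N J'' - Pr (Q j and avoid J'') ≥ (1 - x j) * N J''`, so
`N J ≥ (∏_{j ∈ J₁} (1 - x j)) * N J₂ ≥ (∏_{j ∈ I, j ≠ i, S j meets S i} (1 - x j)) * N J₂` (factors in `[0,1]`, `J₁` is a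
subset). So the left side is `≤ x i * ∏ (1 - x j) * N J₂ ≤ x i * N J`.
Finally `N I ≥ ∏_{i ∈ I} (1 - x i) * N ∅ > 0` (`N ∅ = 1` by `pr_true`), so some `f` of positive weight avoids all.
-/

set_option autoImplicit false

open Finset

namespace Pool.Agent.H70.AE

theorem wt_nonneg {E A : Type} [Fintype E] (μ : E → A → ℝ) (h0 : ∀ e a, 0 ≤ μ e a) (f : E → A) :
    0 ≤ wt μ f := prod_nonneg fun e _ => h0 e (f e)

theorem Pr_nonneg {E A : Type} [Fintype E] [Fintype A] (μ : E → A → ℝ) (h0 : ∀ e a, 0 ≤ μ e a)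
    (P : (E → A) → Prop) : 0 ≤ Pr μ P := by
  classical
  unfold Pr
  refine sum_nonneg fun f _ => ?_
  split_ifs
  · exact wt_nonneg μ h0 f
  · exact le_rfl

theorem Pr_mono {E A : Type} [Fintype E] [Fintype A] (μ : E → A → ℝ) (h0 : ∀ e a, 0 ≤ μ e a)
    (P P' : (E → A) → Prop) (h : ∀ f, P f → P' f) : Pr μ P ≤ Pr μ P' := by
  classical
  unfold Pr
  refine sum_le_sum fun f _ => ?_
  by_cases hP : P f
  · rw [if_pos hP, if_pos (h f hP)]
  · rw [if_neg hP]
    split_ifs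
    · exact wt_nonneg μ h0 f
    · exact le_rfl

theorem Pr_split {E A : Type} [Fintype E] [Fintype A] (μ : E → A → ℝ)
    (P R : (E → A) → Prop) :
    Pr μ P = Pr μ (fun f => R f ∧ P f) + Pr μ (fun f => ¬ R f ∧ P f) := by
  classical
  unfold Pr
  rw [← sum_add_distrib]
  refine sum_congr rfl fun f _ => ?_
  by_cases hP : P f <;> by_cases hR : R f <;> simp [hP, hR]

/-- the probability of avoiding the events in `J` -/
noncomputable def Nn {E A : Type} [Fintype E] [Fintype A] (μ : E → A → ℝ) {ι : Type}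
    (Q : ι → (E → A) → Prop) (J : Finset ι) : ℝ := Pr μ (fun f => ∀ j ∈ J, ¬ Q j f)

open Classical in
theorem Nn_insert {E A : Type} [Fintype E] [Fintype A] (μ : E → A → ℝ) {ι : Type}
    (Q : ι → (E → A) → Prop) (J : Finset ι) (j : ι) :
    Nn μ Q J = Pr μ (fun f => Q j f ∧ ∀ i ∈ J, ¬ Q i f) + Nn μ Q (insert j J) := by
  have h := Pr_split μ (fun f => ∀ i ∈ J, ¬ Q i f) (fun f => Q j f)
  unfold Nn
  rw [h]
  congr 2
  funext f
  rw [Finset.forall_mem_insert]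

open Classical in
theorem chain {E A : Type} [Fintype E] [Fintype A] (μ : E → A → ℝ)
    {ι : Type} (I : Finset ι)
    (Q : ι → (E → A) → Prop)
    (x : ι → ℝ) (x1 : ∀ i ∈ I, x i < 1) (J : Finset ι) (hJ : J ⊆ I)
    (ih : ∀ J' ⊆ J, J'.card < J.card → ∀ i ∈ I,
      Pr μ (fun f => Q i f ∧ ∀ j ∈ J', ¬ Q j f) ≤ x i * Nn μ Q J')
    (J₂ : Finset ι) (h2 : J₂ ⊆ J) (U : Finset ι) (hU : U ⊆ J \ J₂) :
    (∏ j ∈ U, (1 - x j)) * Nn μ Q J₂ ≤ Nn μ Q (J₂ ∪ U) := by
  induction U using Finset.induction_on with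
  | empty => simp
  | insert j U hj ihU =>
    have hjm : j ∈ J \ J₂ := hU (mem_insert_self _ _)
    have hU' : U ⊆ J \ J₂ := fun k hk => hU (mem_insert_of_mem hk)
    have hjJ := (mem_sdiff.1 hjm).1
    have hjI := hJ hjJ
    have hsub : J₂ ∪ U ⊆ J := union_subset h2 (fun k hk => (mem_sdiff.1 (hU' hk)).1)
    have hcard : (J₂ ∪ U).card < J.card := by
      refine card_lt_card (Finset.ssubset_iff_subset_ne.2 ⟨hsub, fun h => ?_⟩)
      rw [← h, mem_union] at hjJ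
      rcases hjJ with h' | h'
      · exact (mem_sdiff.1 hjm).2 h'
      · exact hj h'
    have e1 := ih (J₂ ∪ U) hsub hcard j hjI
    have e2 := Nn_insert μ Q (J₂ ∪ U) j
    have e3 := ihU hU'
    have e4 : J₂ ∪ insert j U = insert j (J₂ ∪ U) := by
      rw [union_insert]
    rw [e4, prod_insert hj]
    have e5 : 0 ≤ 1 - x j := by linarith [x1 j hjI]
    calc (1 - x j) * (∏ j ∈ U, (1 - x j)) * Nn μ Q J₂ = (1 - x j) * ((∏ j ∈ U, (1 - x j)) * Nn μ Q J₂) := by ring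
      _ ≤ (1 - x j) * Nn μ Q (J₂ ∪ U) := mul_le_mul_of_nonneg_left e3 e5
      _ ≤ Nn μ Q (insert j (J₂ ∪ U)) := by linarith

open Classical in
theorem lll {E A : Type} [Fintype E] [Fintype A] (μ : E → A → ℝ)
    (h0 : ∀ e a, 0 ≤ μ e a) (h1 : ∀ e, ∑ a, μ e a = 1) {ι : Type} (I : Finset ι)
    (S : ι → Finset E) (Q : ι → (E → A) → Prop)
    (hS : ∀ i ∈ I, ∀ f g : E → A, (∀ e ∈ S i, f e = g e) → Q i f → Q i g)
    (x : ι → ℝ) (x0 : ∀ i ∈ I, 0 ≤ x i) (x1 : ∀ i ∈ I, x i < 1)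
    (hx : ∀ i ∈ I, Pr μ (Q i) ≤
      x i * ∏ j ∈ I.filter (fun j => j ≠ i ∧ ¬ Disjoint (S i) (S j)), (1 - x j)) :
    ∃ f : E → A, 0 < wt μ f ∧ ∀ i ∈ I, ¬ Q i f := by
  have claim : ∀ n : ℕ, ∀ J ⊆ I, J.card = n → ∀ i ∈ I,
      Pr μ (fun f => Q i f ∧ ∀ j ∈ J, ¬ Q j f) ≤ x i * Nn μ Q J := by
    intro n
    induction n using Nat.strong_induction_on with
    | _ n ih =>
      intro J hJ hn i hi
      have hNJ : 0 ≤ Nn μ Q J := Pr_nonneg μ h0 _
      by_cases hiJ : i ∈ J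
      · have e1 : Pr μ (fun f => Q i f ∧ ∀ j ∈ J, ¬ Q j f) = 0 := by
          unfold Pr
          refine sum_eq_zero fun f _ => if_neg ?_
          rintro ⟨h2, h3⟩
          exact h3 i hiJ h2
        rw [e1]
        exact mul_nonneg (x0 i hi) hNJ
      set J₁ := J.filter (fun j => j ≠ i ∧ ¬ Disjoint (S i) (S j)) with hJ1
      set J₂ := J \ J₁ with hJ2
      have h21 : J₂ ⊆ J := sdiff_subset
      have h11 : J₁ ⊆ J := filter_subset _ _
      have hdis : ∀ j ∈ J₂, Disjoint (S i) (S j) := by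
        intro j hj
        rw [hJ2, mem_sdiff, hJ1, mem_filter] at hj
        by_contra hc
        exact hj.2 ⟨hj.1, fun h => hiJ (h ▸ hj.1), hc⟩
      have e1 : Pr μ (fun f => Q i f ∧ ∀ j ∈ J, ¬ Q j f) ≤
          Pr μ (fun f => Q i f ∧ ∀ j ∈ J₂, ¬ Q j f) :=
        Pr_mono μ h0 _ _ fun f hf => ⟨hf.1, fun j hj => hf.2 j (h21 hj)⟩
      have e2 : Pr μ (fun f => Q i f ∧ ∀ j ∈ J₂, ¬ Q j f) = Pr μ (Q i) * Nn μ Q J₂ := by
        refine pr_indep μ h1 (S i) (Q i) (fun f => ∀ j ∈ J₂, ¬ Q j f) (hS i hi) ?_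
        intro f g hfg hf j hj hQ
        refine hf j hj (hS j (hJ (h21 hj)) g f (fun e he => ?_) hQ)
        refine (hfg e fun he' => ?_).symm
        exact (Finset.disjoint_left.1 (hdis j hj)) he' he
      have hN2 : 0 ≤ Nn μ Q J₂ := Pr_nonneg μ h0 _
      have e3 : (∏ j ∈ J₁, (1 - x j)) * Nn μ Q J₂ ≤ Nn μ Q J := by
        have := chain μ I Q x x1 J hJ (fun J' hJ' hc => ih J'.card (hn ▸ hc) J' (hJ'.trans hJ) rfl)
          J₂ h21 J₁ (by
            intro j hj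
            rw [mem_sdiff, hJ2, mem_sdiff]
            exact ⟨h11 hj, fun h => h.2 hj⟩)
        have e : J₂ ∪ J₁ = J := by
          rw [hJ2, sdiff_union_of_subset h11]
        rwa [e] at this
      have e4 : ∏ j ∈ I.filter (fun j => j ≠ i ∧ ¬ Disjoint (S i) (S j)), (1 - x j) ≤
          ∏ j ∈ J₁, (1 - x j) := by
        have hsub : J₁ ⊆ I.filter (fun j => j ≠ i ∧ ¬ Disjoint (S i) (S j)) := by
          intro j hj
          rw [hJ1, mem_filter] at hj
          exact mem_filter.2 ⟨hJ hj.1, hj.2⟩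
        rw [← prod_sdiff hsub]
        refine mul_le_of_le_one_left (prod_nonneg fun j hj => ?_) (prod_le_one (fun j hj => ?_) fun j hj => ?_)
        · linarith [x1 j (hJ (h11 hj))]
        · linarith [x1 j (mem_filter.1 (mem_sdiff.1 hj).1).1]
        · linarith [x0 j (mem_filter.1 (mem_sdiff.1 hj).1).1]
      calc Pr μ (fun f => Q i f ∧ ∀ j ∈ J, ¬ Q j f) ≤ Pr μ (Q i) * Nn μ Q J₂ := e1.trans e2.le
        _ ≤ (x i * ∏ j ∈ J₁, (1 - x j)) * Nn μ Q J₂ := by
            refine mul_le_mul_of_nonneg_right ((hx i hi).trans ?_) hN2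
            exact mul_le_mul_of_nonneg_left e4 (x0 i hi)
        _ = x i * ((∏ j ∈ J₁, (1 - x j)) * Nn μ Q J₂) := by ring
        _ ≤ x i * Nn μ Q J := mul_le_mul_of_nonneg_left e3 (x0 i hi)
  have hfin : 0 < Nn μ Q I := by
    have e1 := chain μ I Q x x1 I subset_rfl (fun J' hJ' _ => claim J'.card J' hJ' rfl)
      ∅ (empty_subset _) I (by simp)
    have e2 : Nn μ Q ∅ = 1 := by
      unfold Nn
      have : (fun f : E → A => ∀ j ∈ (∅ : Finset ι), ¬ Q j f) = fun _ => True := by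
        funext f
        simp
      rw [this]
      exact pr_true μ h1
    rw [e2, mul_one, empty_union] at e1
    refine lt_of_lt_of_le (prod_pos fun j hj => ?_) e1
    linarith [x1 j hj]
  by_contra hcon
  push Not at hcon
  refine absurd hfin (not_lt.2 ?_)
  unfold Nn Pr
  refine (sum_eq_zero fun f _ => ?_).le
  split_ifs with hf
  · by_contra hne
    have hpos : 0 < wt μ f := lt_of_le_of_ne (wt_nonneg μ h0 f) (Ne.symm hne)
    obtain ⟨i, hi, hQ⟩ := hcon f hpos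
    exact hf i hi hQ
  · rfl

end Pool.Agent.H70.AE
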