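import Pool.Agent.H70.AE.LLL

/-!
# AE-LLLC: the local lemma for cylinder events given by finite sets of atoms

An atom is a pair (variable, value); the event of `C i` is `∀ z ∈ C i, f z.1 = z.2`.

Proof from `lll` with `S i = (C i).image Prod.fst`. (1) `Pr (Q i) ≤ ∏ z ∈ C i, μ z.1 z.2`: if two atoms of `C i` have the
same variable and different values then `Q i` is empty and `Pr = 0`; otherwise `Prod.fst` is injective on `C i`
and `Pr (Q i) = ∏ z ∈ C i, μ z.1 z.2` (e.g. `∑ f, ∏ e, g e (f e) = ∏ e, ∑ a, g e a` with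
`g e a = if (∀ z ∈ C i, z.1 = e → z.2 = a) then μ e a else 0`; for `e` outside `S i` the sum is `1`).
(2) for `i ∈ I` choose `z ∈ C i`: `x i ≤ τ z.1 < 1` (it is one term of `hsum`), and `0 ≤ τ` at all variables of atoms.
(3) `∏_{j ∈ I, j ≠ i, S j meets S i} (1 - x j) ≥ ∏_{e ∈ S i} ∏_{j ∈ I, e ∈ S j} (1 - x j) ≥ ∏_{e ∈ S i} (1 - ∑_{j ∈ I, e ∈ S j} x j)`
`≥ ∏_{e ∈ S i} (1 - τ e) ≥ ∏_{z ∈ C i} (1 - τ z.1)`: all factors are in `[0,1]`; the first step because every `j` of the left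
product occurs on the right; the second is Weierstrass (`Finset.one_sub_sum_le_prod_one_sub` or
`Pool.Agent.H95.AEC.one_sub_sum_le` in `Pool/Agent/H95/AEC/LLL2.lean`).
-/

set_option autoImplicit false

open Finset

namespace Pool.Agent.H70.AE

open Classical in
/-- probability of a cylinder event -/
theorem pr_cyl {E A : Type} [Fintype E] [Fintype A] (μ : E → A → ℝ)
    (h0 : ∀ e a, 0 ≤ μ e a) (h1 : ∀ e, ∑ a, μ e a = 1) (C : Finset (E × A)) :
    Pr μ (fun f => ∀ z ∈ C, f z.1 = z.2) ≤ ∏ z ∈ C, μ z.1 z.2 := by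
  set g : E → A → ℝ := fun e a => if (∀ z ∈ C, z.1 = e → z.2 = a) then μ e a else 0 with hg
  have g0 : ∀ e a, 0 ≤ g e a := by
    intro e a
    simp only [hg]
    split_ifs
    · exact h0 e a
    · exact le_rfl
  have e1 : Pr μ (fun f => ∀ z ∈ C, f z.1 = z.2) = ∏ e, ∑ a, g e a := by
    rw [Finset.prod_univ_sum, Fintype.piFinset_univ]
    unfold Pr
    refine sum_congr rfl fun f _ => ?_
    by_cases hf : ∀ z ∈ C, f z.1 = z.2
    · rw [if_pos hf]
      unfold wt
      refine prod_congr rfl fun e _ => ?_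
      simp only [hg]
      rw [if_pos]
      intro z hz hze
      rw [← hze]
      exact (hf z hz).symm
    · rw [if_neg hf]
      push Not at hf
      obtain ⟨z, hz, hne⟩ := hf
      symm
      refine prod_eq_zero (mem_univ z.1) ?_
      simp only [hg]
      rw [if_neg]
      intro h
      exact hne (h z hz rfl).symm
  rw [e1]
  have e2 : ∏ e, ∑ a, g e a = ∏ e ∈ C.image Prod.fst, ∑ a, g e a := by
    symm
    refine prod_subset (subset_univ _) fun e _ he => ?_
    rw [← h1 e]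
    refine sum_congr rfl fun a _ => ?_
    simp only [hg]
    rw [if_pos]
    intro z hz hze
    exact absurd (mem_image.2 ⟨z, hz, hze⟩) he
  rw [e2]
  have e3 : ∀ z ∈ C, ∑ a, g z.1 a ≤ μ z.1 z.2 := by
    intro z hz
    have e4 : ∑ a, g z.1 a = g z.1 z.2 := by
      refine sum_eq_single z.2 (fun a _ ha => ?_) (fun h => absurd (mem_univ _) h)
      simp only [hg]
      rw [if_neg]
      intro h
      exact ha (h z hz rfl).symm
    rw [e4]
    simp only [hg]
    split_ifs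
    · exact le_rfl
    · exact h0 _ _
  by_cases hinj : Set.InjOn Prod.fst (C : Set (E × A))
  · rw [prod_image hinj]
    exact prod_le_prod (fun z _ => sum_nonneg fun a _ => g0 _ _) e3
  · have : ∃ z ∈ C, ∑ a, g z.1 a = 0 := by
      unfold Set.InjOn at hinj
      push Not at hinj
      obtain ⟨z, hz, w, hw, hzw, hne⟩ := hinj
      refine ⟨z, hz, sum_eq_zero fun a _ => ?_⟩
      simp only [hg]
      rw [if_neg]
      intro h
      have h2 := h z hz rfl
      have h3 := h w hw hzw.symm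
      exact hne (Prod.ext hzw (h2.trans h3.symm))
    obtain ⟨z, hz, hz0⟩ := this
    rw [prod_eq_zero (mem_image.2 ⟨z, hz, rfl⟩) hz0]
    exact prod_nonneg fun z _ => h0 _ _

/-- Weierstrass -/
theorem weier {ι : Type} (I : Finset ι) (x : ι → ℝ) (x0 : ∀ i ∈ I, 0 ≤ x i)
    (x1 : ∀ i ∈ I, x i ≤ 1) : 1 - ∑ i ∈ I, x i ≤ ∏ i ∈ I, (1 - x i) := by
  classical
  induction I using Finset.induction_on with
  | empty => simp
  | insert j U hj ih =>
    rw [sum_insert hj, prod_insert hj]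
    have e1 := ih (fun i hi => x0 i (mem_insert_of_mem hi)) (fun i hi => x1 i (mem_insert_of_mem hi))
    have e2 : 0 ≤ x j := x0 j (mem_insert_self _ _)
    have e3 : x j ≤ 1 := x1 j (mem_insert_self _ _)
    have e4 : ∏ i ∈ U, (1 - x i) ≤ 1 := prod_le_one
      (fun i hi => by linarith [x1 i (mem_insert_of_mem hi)])
      (fun i hi => by linarith [x0 i (mem_insert_of_mem hi)])
    nlinarith

theorem prod_biUnion_ge {ι E : Type} [DecidableEq ι] (S : Finset E) (I : E → Finset ι)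
    (y : ι → ℝ) (y0 : ∀ e ∈ S, ∀ i ∈ I e, 0 ≤ y i) (y1 : ∀ e ∈ S, ∀ i ∈ I e, y i ≤ 1) :
    ∏ e ∈ S, ∏ i ∈ I e, y i ≤ ∏ i ∈ S.biUnion I, y i := by
  classical
  induction S using Finset.induction_on with
  | empty => simp
  | insert e S he ih =>
    rw [prod_insert he, biUnion_insert]
    have e1 := ih (fun e' h' => y0 e' (mem_insert_of_mem h'))
      (fun e' h' => y1 e' (mem_insert_of_mem h'))
    have e2 : 0 ≤ ∏ i ∈ I e, y i := prod_nonneg fun i hi => y0 e (mem_insert_self _ _) i hi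
    have e3 := prod_union_inter (s₁ := I e) (s₂ := S.biUnion I) (f := y)
    have e4 : ∏ i ∈ I e ∩ S.biUnion I, y i ≤ 1 := by
      refine prod_le_one (fun i hi => ?_) (fun i hi => ?_)
      · exact y0 e (mem_insert_self _ _) i (mem_inter.1 hi).1
      · exact y1 e (mem_insert_self _ _) i (mem_inter.1 hi).1
    have e5 : 0 ≤ ∏ i ∈ I e ∪ S.biUnion I, y i := by
      refine prod_nonneg fun i hi => ?_
      rcases mem_union.1 hi with h | h
      · exact y0 e (mem_insert_self _ _) i h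
      · obtain ⟨e', h1, h2⟩ := mem_biUnion.1 h
        exact y0 e' (mem_insert_of_mem h1) i h2
    calc (∏ i ∈ I e, y i) * ∏ e ∈ S, ∏ i ∈ I e, y i
        ≤ (∏ i ∈ I e, y i) * ∏ i ∈ S.biUnion I, y i := mul_le_mul_of_nonneg_left e1 e2
      _ = (∏ i ∈ I e ∪ S.biUnion I, y i) * ∏ i ∈ I e ∩ S.biUnion I, y i := e3.symm
      _ ≤ (∏ i ∈ I e ∪ S.biUnion I, y i) * 1 := mul_le_mul_of_nonneg_left e4 e5
      _ = _ := mul_one _

open Classical in
theorem lllc {E A : Type} [Fintype E] [Fintype A] (μ : E → A → ℝ)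
    (h0 : ∀ e a, 0 ≤ μ e a) (h1 : ∀ e, ∑ a, μ e a = 1) {ι : Type} (I : Finset ι)
    (C : ι → Finset (E × A)) (x : ι → ℝ) (τ : E → ℝ) (hne : ∀ i ∈ I, (C i).Nonempty)
    (x0 : ∀ i ∈ I, 0 ≤ x i) (τ1 : ∀ e, τ e < 1)
    (hsum : ∀ e, ∑ i ∈ I.filter (fun i => ∃ a, (e, a) ∈ C i), x i ≤ τ e)
    (hx : ∀ i ∈ I, ∏ z ∈ C i, μ z.1 z.2 ≤ x i * ∏ z ∈ C i, (1 - τ z.1)) :
    ∃ f : E → A, 0 < wt μ f ∧ ∀ i ∈ I, ¬ ∀ z ∈ C i, f z.1 = z.2 := by
  have x1 : ∀ i ∈ I, x i < 1 := by
    intro i hi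
    obtain ⟨z, hz⟩ := hne i hi
    have hmem : i ∈ I.filter (fun i => ∃ a, (z.1, a) ∈ C i) :=
      mem_filter.2 ⟨hi, z.2, hz⟩
    have h2 := single_le_sum (f := x) (fun j hj => x0 j (mem_filter.1 hj).1) hmem
    exact (h2.trans (hsum z.1)).trans_lt (τ1 z.1)
  have τ0 : ∀ e, 0 ≤ τ e := fun e =>
    (sum_nonneg fun j hj => x0 j (mem_filter.1 hj).1).trans (hsum e)
  refine lll μ h0 h1 I (fun i => (C i).image Prod.fst) (fun i f => ∀ z ∈ C i, f z.1 = z.2)
    ?_ x x0 x1 ?_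
  · intro i _ f g hfg hf z hz
    rw [← hf z hz]
    exact (hfg z.1 (mem_image.2 ⟨z, hz, rfl⟩)).symm
  · intro i hi
    refine (pr_cyl μ h0 h1 (C i)).trans ((hx i hi).trans ?_)
    refine mul_le_mul_of_nonneg_left ?_ (x0 i hi)
    have a1 : ∏ z ∈ C i, (1 - τ z.1) ≤ ∏ e ∈ (C i).image Prod.fst, (1 - τ e) := by
      rw [Finset.prod_comp (fun e => 1 - τ e) Prod.fst]
      refine prod_le_prod (fun e _ => pow_nonneg (by linarith [τ1 e]) _) (fun e he => ?_)
      refine pow_le_of_le_one (by linarith [τ1 e]) (by linarith [τ0 e]) ?_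
      obtain ⟨z, hz, hze⟩ := mem_image.1 he
      exact (card_pos.2 ⟨z, mem_filter.2 ⟨hz, hze⟩⟩).ne'
    have a2 : ∏ e ∈ (C i).image Prod.fst, (1 - τ e) ≤
        ∏ e ∈ (C i).image Prod.fst, ∏ j ∈ I.filter (fun j => ∃ a, (e, a) ∈ C j), (1 - x j) := by
      refine prod_le_prod (fun e _ => by linarith [τ1 e]) (fun e _ => ?_)
      refine le_trans ?_ (weier _ x (fun j hj => x0 j (mem_filter.1 hj).1)
        (fun j hj => (x1 j (mem_filter.1 hj).1).le))
      linarith [hsum e]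
    have a3 := prod_biUnion_ge ((C i).image Prod.fst)
      (fun e => I.filter (fun j => ∃ a, (e, a) ∈ C j)) (fun j => 1 - x j)
      (fun e _ j hj => by linarith [x1 j (mem_filter.1 hj).1])
      (fun e _ j hj => by linarith [x0 j (mem_filter.1 hj).1])
    refine (a1.trans (a2.trans a3)).trans ?_
    have hsub : I.filter (fun j => j ≠ i ∧
        ¬ Disjoint ((C i).image Prod.fst) ((C j).image Prod.fst)) ⊆
        ((C i).image Prod.fst).biUnion (fun e => I.filter (fun j => ∃ a, (e, a) ∈ C j)) := by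
      intro j hj
      obtain ⟨hjI, _, hnd⟩ := mem_filter.1 hj
      rw [Finset.not_disjoint_iff] at hnd
      obtain ⟨e, he1, he2⟩ := hnd
      obtain ⟨w, hw, hwe⟩ := mem_image.1 he2
      refine mem_biUnion.2 ⟨e, he1, mem_filter.2 ⟨hjI, w.2, ?_⟩⟩
      rw [← hwe]
      exact hw
    rw [← prod_sdiff hsub]
    refine mul_le_of_le_one_left (prod_nonneg fun j hj => ?_)
      (prod_le_one (fun j hj => ?_) fun j hj => ?_)
    · linarith [x1 j (mem_filter.1 hj).1]
    · obtain ⟨e, _, h2⟩ := mem_biUnion.1 (mem_sdiff.1 hj).1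
      linarith [x1 j (mem_filter.1 h2).1]
    · obtain ⟨e, _, h2⟩ := mem_biUnion.1 (mem_sdiff.1 hj).1
      linarith [x0 j (mem_filter.1 h2).1]

end Pool.Agent.H70.AE
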